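import Mathlib

/-!
# Backward orbits near the upper fixed point (0 < b < 1)

Written with `e = x₊ - x` and the velocity `w k = e k - e (k+1)` of a BACKWARD orbit `e`, the
Henon recursion is `w k = b * w (k+1) + e (k+1) * (δ - e (k+1))`, `δ = x₊ - x₋`. For
`0 ≤ δ ≤ 1 - b` every bounded non-negative backward orbit satisfies `e ≤ 3 δ / 2`.
-/

set_option autoImplicit false

open Set Filter Topology

namespace MR

/-- a bounded sequence with non-negative decrements converges and the decrements tend to zero -/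
theorem lim_anti (e : ℕ → ℝ) (B : ℝ) (hB : ∀ k, B ≤ e k) (hw : ∀ k, e (k + 1) ≤ e k) :
    ∃ L, B ≤ L ∧ Tendsto e atTop (𝓝 L) ∧ ∀ k, L ≤ e k := by
  have ha : Antitone e := antitone_nat_of_succ_le hw
  have hbd : BddBelow (range e) := ⟨B, by rintro _ ⟨k, rfl⟩; exact hB k⟩
  refine ⟨⨅ k, e k, le_ciInf hB, tendsto_atTop_ciInf ha hbd, fun k => ciInf_le hbd k⟩

/-- the energy -/
noncomputable def F (b δ e w : ℝ) : ℝ := δ * e ^ 2 / 2 - e ^ 3 / 3 - b / 2 * w ^ 2

theorem F_step (b δ e e' w w' : ℝ) (h1 : e = e' + w) (h2 : w = b * w' + e' * (δ - e')) :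
    F b δ e w - F b δ e' w' =
      w ^ 2 * ((1 - b) + δ / 2 - (e' + w / 3)) + b / 2 * (w - w') ^ 2 := by
  unfold F
  subst h1
  have : b * w' = w - e' * (δ - e') := by linarith
  linear_combination w * this

theorem rise (b δ B : ℝ) (hb0 : 0 < b) (hb1 : b < 1) (hδ0 : 0 ≤ δ) (hδ1 : δ ≤ 1 - b)
    (e : ℕ → ℝ) (h0 : ∀ k, 0 ≤ e k) (hB : ∀ k, e k ≤ B)
    (hrec : ∀ k, e k = e (k + 1) * (1 + b + δ - e (k + 1)) - b * e (k + 2)) :
    e 0 ≤ 3 * δ / 2 := by
  set w : ℕ → ℝ := fun k => e k - e (k + 1) with hw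
  have hwe : ∀ k, e k = e (k + 1) + w k := fun k => by simp [hw]
  have hwr : ∀ k, w k = b * w (k + 1) + e (k + 1) * (δ - e (k + 1)) := fun k => by
    have h := hrec k
    simp only [hw]
    have h3 : e (k + 1 + 1) = e (k + 2) := rfl
    rw [h3]
    nlinarith
  have hstep : ∀ k, F b δ (e k) (w k) - F b δ (e (k + 1)) (w (k + 1)) =
      (w k) ^ 2 * ((1 - b) + δ / 2 - (e (k + 1) + w k / 3)) + b / 2 * (w k - w (k + 1)) ^ 2 :=
    fun k => F_step b δ _ _ _ _ (hwe k) (hwr k)
  -- (R)
  have hR : ∀ k, e k ≤ 3 * δ / 2 → 0 ≤ w k → 0 ≤ F b δ (e k) (w k) := by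
    intro k hk hwk
    by_contra hneg
    rw [not_le] at hneg
    have key : ∀ j, e (k + j) ≤ 3 * δ / 2 ∧ 0 ≤ w (k + j) ∧
        F b δ (e (k + j)) (w (k + j)) ≤ F b δ (e k) (w k) := by
      intro j
      induction j with
      | zero => exact ⟨hk, hwk, le_rfl⟩
      | succ j ih =>
        obtain ⟨i1, i2, i3⟩ := ih
        have hs := hstep (k + j)
        have he := hwe (k + j)
        have e1 : k + (j + 1) = k + j + 1 := rfl
        rw [e1]
        have he' : e (k + j + 1) ≤ 3 * δ / 2 := by linarith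
        have hfac : 0 ≤ (1 - b) + δ / 2 - (e (k + j + 1) + w (k + j) / 3) := by linarith
        have hm : 0 ≤ (w (k + j)) ^ 2 * ((1 - b) + δ / 2 - (e (k + j + 1) + w (k + j) / 3)) :=
          mul_nonneg (sq_nonneg _) hfac
        have hw1 : 0 ≤ w (k + j + 1) := by
          by_contra hcon
          rw [not_le] at hcon
          have hG : 0 ≤ δ * (e (k + j + 1)) ^ 2 / 2 - (e (k + j + 1)) ^ 3 / 3 := by
            have : δ * (e (k + j + 1)) ^ 2 / 2 - (e (k + j + 1)) ^ 3 / 3 =
              (e (k + j + 1)) ^ 2 * ((3 * δ / 2 - e (k + j + 1)) / 3) := by ring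
            rw [this]
            exact mul_nonneg (sq_nonneg _) (by linarith)
          have hq : 0 ≤ b / 2 * (w (k + j) - w (k + j + 1)) ^ 2 - b / 2 * (w (k + j + 1)) ^ 2 := by
            have : b / 2 * (w (k + j) - w (k + j + 1)) ^ 2 - b / 2 * (w (k + j + 1)) ^ 2 =
              b / 2 * ((w (k + j)) * (w (k + j) + 2 * (- w (k + j + 1)))) := by ring
            rw [this]
            exact mul_nonneg (by linarith) (mul_nonneg i2 (by linarith))
          have hF1 : F b δ (e (k + j + 1)) (w (k + j + 1)) =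
            δ * (e (k + j + 1)) ^ 2 / 2 - (e (k + j + 1)) ^ 3 / 3
              - b / 2 * (w (k + j + 1)) ^ 2 := rfl
          linarith
        refine ⟨he', hw1, ?_⟩
        have : 0 ≤ b / 2 * (w (k + j) - w (k + j + 1)) ^ 2 :=
          mul_nonneg (by linarith) (sq_nonneg _)
        linarith
    obtain ⟨L, hL0, hL, hLe⟩ := lim_anti (fun j => e (k + j)) 0 (fun j => h0 _) (fun j => by
      have := hwe (k + j)
      have h2 := (key j).2.1
      have e1 : k + (j + 1) = k + j + 1 := rfl
      rw [e1]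
      linarith)
    have hL2 : L ≤ 3 * δ / 2 := (hLe 0).trans hk
    have hwL : Tendsto (fun j => w (k + j)) atTop (𝓝 (L - L)) := by
      have h1 : Tendsto (fun j => e (k + (j + 1))) atTop (𝓝 L) :=
        hL.comp (tendsto_add_atTop_nat 1)
      exact hL.sub h1
    have hFL : Tendsto (fun j => F b δ (e (k + j)) (w (k + j))) atTop
        (𝓝 (F b δ L (L - L))) := by
      unfold F
      exact (((hL.pow 2).const_mul δ).div_const 2 |>.sub ((hL.pow 3).div_const 3)).sub
        ((hwL.pow 2).const_mul (b / 2))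
    have hle : F b δ L (L - L) ≤ F b δ (e k) (w k) :=
      le_of_tendsto hFL (Eventually.of_forall fun j => (key j).2.2)
    have hG : F b δ L (L - L) = L ^ 2 * ((3 * δ / 2 - L) / 3) := by
      unfold F; ring
    have : 0 ≤ L ^ 2 * ((3 * δ / 2 - L) / 3) := mul_nonneg (sq_nonneg _) (by linarith)
    linarith
  by_contra hcon
  rw [not_le] at hcon
  -- (S1)
  have hS1 : ∃ k, 3 * δ / 2 < e k ∧ 0 ≤ w k := by
    by_contra hno
    push Not at hno
    have hall : ∀ k, 3 * δ / 2 < e k := by
      intro k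
      induction k with
      | zero => exact hcon
      | succ k ih =>
        have := hno k ih
        have h2 := hwe k
        linarith
    obtain ⟨L, hL0, hL, hLe⟩ := lim_anti (fun k => - e k) (-B) (fun k => neg_le_neg (hB k))
      (fun k => by
        have := hno k (hall k)
        have h2 := hwe k
        linarith)
    have hL' : Tendsto e atTop (𝓝 (-L)) := by
      have := hL.neg
      simpa using this
    have hLgt : e 0 ≤ -L := by
      have := hLe 0
      linarith
    have h1 : Tendsto (fun k => e (k + 1)) atTop (𝓝 (-L)) := hL'.comp (tendsto_add_atTop_nat 1)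
    have h2 : Tendsto (fun k => e (k + 2)) atTop (𝓝 (-L)) := hL'.comp (tendsto_add_atTop_nat 2)
    have h3 : Tendsto (fun k => e (k + 1) * (1 + b + δ - e (k + 1)) - b * e (k + 2)) atTop
        (𝓝 (-L * (1 + b + δ - -L) - b * -L)) :=
      (h1.mul (tendsto_const_nhds.sub h1)).sub (h2.const_mul b)
    have h4 : -L = -L * (1 + b + δ - -L) - b * -L :=
      tendsto_nhds_unique hL' (h3.congr fun k => (hrec k).symm)
    have h5 : (-L) * (δ - -L) = 0 := by linarith
    rcases mul_eq_zero.1 h5 with h | h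
    · linarith
    · have : -L = δ := by linarith
      linarith
  obtain ⟨k, hk1, hk2⟩ := hS1
  -- (S2)
  have hS2 : ∃ j, 3 * δ / 2 < e j ∧ 0 ≤ w j ∧ e (j + 1) ≤ 3 * δ / 2 := by
    by_contra hno
    push Not at hno
    have hall : ∀ j, 3 * δ / 2 < e (k + j) ∧ 0 ≤ w (k + j) := by
      intro j
      induction j with
      | zero => exact ⟨hk1, hk2⟩
      | succ j ih =>
        obtain ⟨i1, i2⟩ := ih
        have e1 : k + (j + 1) = k + j + 1 := rfl
        rw [e1]
        have h3 := hno _ i1 i2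
        refine ⟨h3, ?_⟩
        have h4 := hwr (k + j)
        have h5 : 0 ≤ e (k + j + 1) * (e (k + j + 1) - δ) :=
          mul_nonneg (h0 _) (by linarith)
        have h6 : 0 ≤ b * w (k + j + 1) := by nlinarith
        exact nonneg_of_mul_nonneg_right h6 hb0
    have hmono : ∀ j, w (k + j) ≤ w (k + (j + 1)) := by
      intro j
      have e1 : k + (j + 1) = k + j + 1 := rfl
      rw [e1]
      have h4 := hwr (k + j)
      have h1 := (hall (j + 1)).1
      have h2 := (hall (j + 1)).2
      rw [e1] at h1 h2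
      have h5 : 0 ≤ e (k + j + 1) * (e (k + j + 1) - δ) :=
        mul_nonneg (h0 _) (by linarith)
      nlinarith
    have hmono' : Monotone fun j => w (k + j) := monotone_nat_of_le_succ hmono
    obtain ⟨L, hL0, hL, hLe⟩ := lim_anti (fun j => e (k + j)) 0 (fun j => h0 _) (fun j => by
      have := hwe (k + j)
      have h2 := (hall j).2
      have e1 : k + (j + 1) = k + j + 1 := rfl
      rw [e1]
      linarith)
    have hwL : Tendsto (fun j => w (k + j)) atTop (𝓝 0) := by
      have h1 : Tendsto (fun j => e (k + (j + 1))) atTop (𝓝 L) :=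
        hL.comp (tendsto_add_atTop_nat 1)
      have := hL.sub h1
      rw [sub_self] at this
      exact this
    have hz : ∀ j, w (k + j) = 0 := fun j =>
      le_antisymm (hmono'.ge_of_tendsto hwL j) (hall j).2
    have h4 := hwr (k + 0)
    have z0 := hz 0
    have z1 := hz 1
    have e1 : k + 1 = k + 0 + 1 := rfl
    rw [e1] at z1
    rw [z0, z1] at h4
    have h5 : e (k + 0 + 1) * (δ - e (k + 0 + 1)) = 0 := by linarith
    have h6 := (hall 1).1
    rw [e1] at h6
    rcases mul_eq_zero.1 h5 with h | h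
    · linarith
    · linarith
  -- (S3)
  obtain ⟨j, hj1, hj2, hj3⟩ := hS2
  have hej := hwe j
  have hwj := hwr j
  have he0 := h0 (j + 1)
  have hst := hstep j
  have hFneg : F b δ (e j) (w j) < 0 := by
    have h1 : F b δ (e j) (w j) = (e j) ^ 2 * ((3 * δ / 2 - e j) / 3) - b / 2 * (w j) ^ 2 := by
      unfold F; ring
    have h2 : 0 < e j := by linarith
    have h3 : (e j) ^ 2 * ((3 * δ / 2 - e j) / 3) < 0 :=
      mul_neg_of_pos_of_neg (by positivity) (by linarith)
    have h4 : 0 ≤ b / 2 * (w j) ^ 2 := mul_nonneg (by linarith) (sq_nonneg _)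
    linarith
  rcases le_or_gt 0 (w (j + 1)) with hpos | hneg
  · have hF := hR (j + 1) hj3 hpos
    set E := e (j + 1) with hE
    set V := w (j + 1) with hV
    set ξ := 3 * δ / 2 - E with hξ
    have hξ0 : 0 ≤ ξ := by linarith
    have hE' : E = 3 * δ / 2 - ξ := by linarith
    -- w j ≤ 3 ξ
    have hbound : w j ≤ 3 * ξ := by
      by_contra hc
      rw [not_le] at hc
      have hY : (3 - E) * ξ + E * δ / 2 < b * V := by
        have : E * (δ - E) = E * ξ - E * δ / 2 := by
          rw [hξ]; ring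
        nlinarith
      have hE32 : E ≤ 3 / 2 := by linarith
      have hp : 0 ≤ (3 - E) * ξ := mul_nonneg (by linarith) hξ0
      have hq : 0 ≤ E * δ / 2 := by positivity
      have hsq : ((3 - E) * ξ + E * δ / 2) ^ 2 < (b * V) ^ 2 :=
        pow_lt_pow_left₀ hY (by linarith) (by norm_num)
      have ham : 4 * (((3 - E) * ξ) * (E * δ / 2)) ≤ ((3 - E) * ξ + E * δ / 2) ^ 2 := by
        nlinarith [sq_nonneg ((3 - E) * ξ - E * δ / 2)]
      have hFe : (b * V) ^ 2 ≤ 2 * b / 3 * E ^ 2 * ξ := by
        have h1 : F b δ E V = E ^ 2 * (ξ / 3) - b / 2 * V ^ 2 := by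
          unfold F; rw [hξ]; ring
        rw [h1] at hF
        nlinarith [mul_nonneg hb0.le hF]
      have h7 : 2 * b / 3 * E ^ 2 * ξ ≤ b * (E * δ * ξ) := by
        have h8 : E ≤ 3 * δ / 2 := hj3
        have h9 : 0 ≤ b * E * ξ := by positivity
        nlinarith [mul_nonneg h9 (sub_nonneg.2 h8)]
      have h10 : b * (E * δ * ξ) ≤ 4 * (((3 - E) * ξ) * (E * δ / 2)) := by
        have h11 : 0 ≤ E * δ * ξ := by positivity
        nlinarith [mul_nonneg h11 (by linarith : (0:ℝ) ≤ 2 * (3 - E) - b)]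
      linarith
    have hfac : 0 ≤ (1 - b) + δ / 2 - (E + w j / 3) := by linarith
    have hm : 0 ≤ (w j) ^ 2 * ((1 - b) + δ / 2 - (E + w j / 3)) := mul_nonneg (sq_nonneg _) hfac
    have hn : 0 ≤ b / 2 * (w j - V) ^ 2 := mul_nonneg (by linarith) (sq_nonneg _)
    linarith
  · have h1 : b * w (j + 1) < 0 := mul_neg_of_pos_of_neg hb0 hneg
    have hwpos : 0 < w j := by linarith
    have h2 : 0 < e (j + 1) * (δ - e (j + 1)) := by linarith
    have h3 : 0 < δ - e (j + 1) := by
      by_contra hc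
      rw [not_lt] at hc
      nlinarith
    have h4 : e j ≤ δ := by
      have : 0 ≤ (δ - e (j + 1)) * (1 - e (j + 1)) := mul_nonneg h3.le (by linarith)
      nlinarith
    linarith

end MR
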