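import Pool.Agent.Lib.MP_904526_E.Defs
import Pool.Agent.Lib.MP_904526_an.F1

/-!
# The lower fixed point is a sink
-/

set_option autoImplicit false

open Set Filter Topology MeasureTheory

namespace MR

open MD (E hen Dh coc)

/-- roots of `z² - T z + b` lie in the open unit disc if `|b| < 1`, `|T| < 1 + b` -/
theorem root_lt (T b : ℝ) (hb : |b| < 1) (hT : |T| < 1 + b) (z : ℂ)
    (hz : z ^ 2 - T * z + b = 0) : ‖z‖ < 1 := by
  have hb' := abs_lt.1 hb
  have hT' := abs_lt.1 hT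
  have hre := congrArg Complex.re hz
  have him := congrArg Complex.im hz
  simp [pow_two] at hre him
  have h1 : z.re * z.re + z.im * z.im < 1 := by
    have h2 : z.im * (2 * z.re - T) = 0 := by linarith
    rcases mul_eq_zero.1 h2 with h | h
    · rw [h] at hre ⊢
      have hq : z.re ^ 2 - T * z.re + b = 0 := by nlinarith
      have h3 : z.re < 1 := by
        by_contra hc
        rw [not_lt] at hc
        nlinarith [mul_nonneg (sub_nonneg.2 hc) (by linarith : (0:ℝ) ≤ z.re - b),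
          mul_pos (by linarith : (0:ℝ) < 1 + b - T) (by linarith : (0:ℝ) < z.re)]
      have h4 : -1 < z.re := by
        by_contra hc
        rw [not_lt] at hc
        nlinarith [mul_nonneg (by linarith : (0:ℝ) ≤ -z.re - 1) (by linarith : (0:ℝ) ≤ -z.re - b),
          mul_pos (by linarith : (0:ℝ) < 1 + b + T) (by linarith : (0:ℝ) < -z.re)]
      nlinarith
    · have h5 : z.re = T / 2 := by linarith
      rw [h5] at hre ⊢
      nlinarith
  have h6 : ‖z‖ ^ 2 < 1 := by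
    rw [← Complex.normSq_eq_norm_sq, Complex.normSq_apply]
    exact h1
  nlinarith [norm_nonneg z]

/-- linear recursions with both roots in the unit disc tend to zero -/
theorem rec_tendsto (T b : ℝ) (hb : |b| < 1) (hT : |T| < 1 + b) (r : ℕ → ℝ)
    (hr : ∀ n, r (n + 2) = T * r (n + 1) - b * r n) : Tendsto r atTop (𝓝 0) := by
  obtain ⟨s, hs⟩ : ∃ s : ℂ, s ^ 2 = (T : ℂ) ^ 2 - 4 * b :=
    IsAlgClosed.exists_pow_nat_eq _ (by norm_num)
  set l1 : ℂ := (T + s) / 2 with hl1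
  set l2 : ℂ := (T - s) / 2 with hl2
  have hsum : l1 + l2 = T := by rw [hl1, hl2]; ring
  have hprod : l1 * l2 = b := by
    rw [hl1, hl2]
    linear_combination (-1 / 4) * hs
  have hn1 : ‖l1‖ < 1 := root_lt T b hb hT l1 (by rw [← hsum, ← hprod]; ring)
  have hn2 : ‖l2‖ < 1 := root_lt T b hb hT l2 (by rw [← hsum, ← hprod]; ring)
  set ρ : ℝ := (1 + max ‖l1‖ ‖l2‖) / 2 with hρ
  have hρ1 : ‖l1‖ ≤ ρ := by
    have := le_max_left ‖l1‖ ‖l2‖
    linarith
  have hρ2 : ‖l2‖ ≤ ρ := by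
    have := le_max_right ‖l1‖ ‖l2‖
    linarith
  have hρ3 : ρ < 1 := by
    have := max_lt hn1 hn2
    linarith
  have hρ0 : 0 < ρ := by
    have := le_max_left ‖l1‖ ‖l2‖
    have := norm_nonneg l1
    linarith
  have hz : ∀ n, (r (n + 1) : ℂ) - l2 * r n = l1 ^ n * ((r 1 : ℂ) - l2 * r 0) := by
    intro n
    induction n with
    | zero => simp
    | succ n ih =>
      rw [pow_succ', mul_assoc, ← ih, hr n]
      push_cast
      rw [← hsum, ← hprod]
      ring
  set C := ‖(r 1 : ℂ) - l2 * r 0‖ with hC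
  have hbd : ∀ n : ℕ, ρ * ‖(r n : ℂ)‖ ≤ ρ ^ (n + 1) * ‖(r 0 : ℂ)‖ + n * ρ ^ n * C := by
    intro n
    induction n with
    | zero => simp
    | succ n ih =>
      have h1 : (r (n + 1) : ℂ) = l2 * r n + l1 ^ n * ((r 1 : ℂ) - l2 * r 0) := by
        rw [← hz n]; ring
      have h2 : ‖(r (n + 1) : ℂ)‖ ≤ ρ * ‖(r n : ℂ)‖ + ρ ^ n * C := by
        rw [h1]
        refine (norm_add_le _ _).trans ?_
        rw [norm_mul, norm_mul, norm_pow]
        gcongr
      calc ρ * ‖(r (n + 1) : ℂ)‖ ≤ ρ * (ρ * ‖(r n : ℂ)‖ + ρ ^ n * C) := by gcongr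
        _ ≤ ρ * ((ρ ^ (n + 1) * ‖(r 0 : ℂ)‖ + n * ρ ^ n * C) + ρ ^ n * C) := by gcongr
        _ = ρ ^ (n + 1 + 1) * ‖(r 0 : ℂ)‖ + ((n + 1 : ℕ) : ℝ) * ρ ^ (n + 1) * C := by
          push_cast; ring
  have hlim : Tendsto (fun n : ℕ => (ρ ^ (n + 1) * ‖(r 0 : ℂ)‖ + n * ρ ^ n * C) / ρ) atTop
      (𝓝 ((0 * ‖(r 0 : ℂ)‖ + 0 * C) / ρ)) := by
    refine Tendsto.div_const ?_ _
    refine Tendsto.add ?_ ?_
    · refine Tendsto.mul_const _ ?_
      exact (tendsto_pow_atTop_nhds_zero_of_lt_one hρ0.le hρ3).comp (tendsto_add_atTop_nat 1)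
    · refine Tendsto.mul_const _ ?_
      exact tendsto_self_mul_const_pow_of_lt_one hρ0.le hρ3
  have h0 : (0 * ‖(r 0 : ℂ)‖ + 0 * C) / ρ = 0 := by simp
  rw [h0] at hlim
  refine squeeze_zero_norm (fun n => ?_) hlim
  rw [le_div_iff₀ hρ0]
  have := hbd n
  rw [Complex.norm_real] at this
  linarith

theorem clm_norm_le (A : E →L[ℝ] E) : ‖A‖ ≤ ‖A (1, 0)‖ + ‖A (0, 1)‖ := by
  refine ContinuousLinearMap.opNorm_le_bound _ (by positivity) fun w => ?_
  have h : A w = w.1 • A (1, 0) + w.2 • A (0, 1) := by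
    rw [← map_smul, ← map_smul, ← map_add]
    congr 1
    ext <;> simp
  rw [h]
  refine (norm_add_le _ _).trans ?_
  rw [norm_smul, norm_smul]
  have h1 : ‖w.1‖ ≤ ‖w‖ := norm_fst_le w
  have h2 : ‖w.2‖ ≤ ‖w‖ := norm_snd_le w
  nlinarith [norm_nonneg (A (1, 0)), norm_nonneg (A (0, 1))]

/-- the lower fixed point supports a sink -/
theorem sink_fix (c b t : ℝ) (hb0 : b ≠ 0) (hb1 : |b| < 1) (ht : t ^ 2 - (1 + b) * t + c = 0)
    (hT : |2 * t| < 1 + b) (μ : Measure (ℝ × ℝ)) (hμ : μ {((t, t) : E)} = 1) :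
    ME.SupportedOnSink c b μ := by
  have hfix : ME.henonMap c b (t, t) = ((t, t) : E) := by
    simp only [ME.henonMap]
    ext
    · simp only; linarith
    · rfl
  have hfixn : ∀ n : ℕ, (ME.henonMap c b)^[n] (t, t) = ((t, t) : E) := fun n =>
    Function.iterate_fixed hfix n
  have hfixn' : ∀ n : ℕ, (hen c b hb0)^[n] (t, t) = ((t, t) : E) := fun n => hfixn n
  -- the sequences
  have hseq : ∀ u v : ℝ, Tendsto (fun n : ℕ => ‖coc (Dh b) (hen c b hb0) n (t, t) (u, v)‖) atTop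
      (𝓝 0) := by
    intro u v
    set r : ℕ → ℝ := fun n => (coc (Dh b) (hen c b hb0) n (t, t) (u, v)).2 with hr
    have hs : ∀ n, coc (Dh b) (hen c b hb0) (n + 1) (t, t) (u, v) =
        ((2 * t * (coc (Dh b) (hen c b hb0) n (t, t) (u, v)).1 - b * r n,
          (coc (Dh b) (hen c b hb0) n (t, t) (u, v)).1) : E) := by
      intro n
      rw [MD.coc_succ, hfixn']
      rfl
    have h1 : ∀ n, (coc (Dh b) (hen c b hb0) n (t, t) (u, v)).1 = r (n + 1) := fun n => by
      simp only [hr]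
      rw [hs n]
    have hrec : ∀ n, r (n + 2) = (2 * t) * r (n + 1) - b * r n := by
      intro n
      rw [← h1 (n + 1), hs n]
      simp only
      rw [h1 n]
    have hlim := rec_tendsto (2 * t) b hb1 hT r hrec
    have hlim1 : Tendsto (fun n => r (n + 1)) atTop (𝓝 0) := hlim.comp (tendsto_add_atTop_nat 1)
    have h2 : ∀ n, ‖coc (Dh b) (hen c b hb0) n (t, t) (u, v)‖ = max |r (n + 1)| |r n| := by
      intro n
      rw [Prod.norm_def, h1 n]
      rfl
    have h3 : Tendsto (fun n => max |r (n + 1)| |r n|) atTop (𝓝 (max |0| |0|)) :=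
      hlim1.abs.max hlim.abs
    rw [abs_zero, max_self] at h3
    exact h3.congr fun n => (h2 n).symm
  have hsum := (hseq 1 0).add (hseq 0 1)
  rw [add_zero] at hsum
  obtain ⟨m, hm1, hm2⟩ := ((hsum.eventually (gt_mem_nhds one_pos)).and
    (eventually_ge_atTop 1)).exists
  refine ⟨(t, t), m, hm2, hfixn m, ?_, ?_⟩
  · have h := MD.henon_fderiv c b hb0 m ((t, t) : E)
    have h' : fderiv ℝ ((ME.henonMap c b)^[m]) ((t, t) : E) =
      coc (Dh b) (hen c b hb0) m ((t, t) : E) := h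
    rw [h']
    exact (clm_norm_le _).trans_lt hm1
  · rw [← hμ]
    congr 1
    ext q
    simp [hfixn]

end MR
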