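import Pool.Agent.Lib.MP_904526_R.K
import Pool.Agent.Lib.MP_904526_R.S
import Pool.Agent.Lib.MP_904526_E.MM

/-!
# Gradient-like Henon maps are mildly dissipative

If all bounded orbits satisfy `x ≥ |b| - (1 - b) / 2`, then
`V (x, y) = x³/3 - (1+b) x²/2 + c x - (|b|/2) (x - y)²` is a strict Lyapunov function on the set of
bounded orbits.
-/

set_option autoImplicit false

open Set Filter Topology MeasureTheory

namespace MR

open MD (E hen KK)
open ME (henonMap stableSet SupportedOnSink MildlyDissipative cx Km)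

/-- points of a bounded branch lie in the set of bounded orbits -/
theorem in_KK (c b : ℝ) (hb : b ≠ 0) (hb1 : |b| < 1) (x y : E) (hx : x ∈ KK c b hb)
    (hy : y ∈ stableSet c b x) (hm : cx y ∈ Km c b) : y ∈ KK c b hb := by
  refine MD.kk_of c b hb hb1 y ?_ ?_
  · obtain ⟨R, hR⟩ := hm
    refine ⟨R, (Eventually.of_forall fun n => ?_).frequently⟩
    have := hR n
    rwa [ME.mm_Gc_cx c b hb, ME.cx_norm] at this
  · obtain ⟨κ, hκ, C, hC⟩ := hy
    refine ⟨|C| + (3 + |c|), (Eventually.of_forall fun n => ?_).frequently⟩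
    have h1 := hC n
    have h2 : Real.exp (-κ * n) ≤ 1 := Real.exp_le_one_iff.2 (by
      have : (0 : ℝ) ≤ n := Nat.cast_nonneg n
      nlinarith)
    have h3 : C * Real.exp (-κ * n) ≤ |C| := by
      calc C * Real.exp (-κ * n) ≤ |C| * Real.exp (-κ * n) :=
            mul_le_mul_of_nonneg_right (le_abs_self C) (Real.exp_pos _).le
        _ ≤ |C| * 1 := mul_le_mul_of_nonneg_left h2 (abs_nonneg C)
        _ = |C| := mul_one _
    have h4 : ‖(hen c b hb)^[n] x‖ ≤ 3 + |c| := (hx n).1
    have h5 : ‖(hen c b hb)^[n] y - (hen c b hb)^[n] x‖ ≤ |C| := by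
      rw [← dist_eq_norm]
      exact h1.trans h3
    calc ‖(hen c b hb)^[n] y‖ = ‖((hen c b hb)^[n] y - (hen c b hb)^[n] x) +
          (hen c b hb)^[n] x‖ := by rw [sub_add_cancel]
      _ ≤ _ := (norm_add_le _ _).trans (add_le_add h5 h4)

/-- a point of a bounded stable branch contradicts a strict Lyapunov function which is minimal
at the base point -/
theorem no_point (c b : ℝ) (hb : b ≠ 0) (V : E → ℝ) (hV : Continuous V)
    (hmono : ∀ z ∈ KK c b hb, V z ≤ V (hen c b hb z))
    (hstr : ∀ z ∈ KK c b hb, V (hen c b hb z) = V z → hen c b hb z = z)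
    (x : E) (hx : hen c b hb x = x)
    (hmin : ∀ q ∈ KK c b hb, hen c b hb q = q → V x ≤ V q)
    (y : E) (hyK : y ∈ KK c b hb) (hyx : y ≠ x) (hy : y ∈ stableSet c b x) : False := by
  obtain ⟨κ, hκ, C, hC⟩ := hy
  have hxn : ∀ n : ℕ, (hen c b hb)^[n] x = x := fun n => Function.iterate_fixed hx n
  have hlim : Tendsto (fun n : ℕ => (hen c b hb)^[n] y) atTop (𝓝 x) := by
    rw [tendsto_iff_dist_tendsto_zero]
    have h1 : Tendsto (fun n : ℕ => C * Real.exp (-κ * n)) atTop (𝓝 (C * 0)) := by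
      refine Tendsto.const_mul C ?_
      have h2 : Tendsto (fun n : ℕ => (Real.exp (-κ)) ^ n) atTop (𝓝 0) :=
        tendsto_pow_atTop_nhds_zero_of_lt_one (Real.exp_pos _).le
          (Real.exp_lt_one_iff.2 (by linarith))
      refine h2.congr fun n => ?_
      rw [← Real.exp_nat_mul]
      ring_nf
    rw [mul_zero] at h1
    refine squeeze_zero (fun n => dist_nonneg) (fun n => ?_) h1
    have := hC n
    have e : (henonMap c b)^[n] x = x := hxn n
    rw [e] at this
    exact this
  have hnf : hen c b hb y ≠ y := by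
    intro h
    have : Tendsto (fun n : ℕ => (hen c b hb)^[n] y) atTop (𝓝 y) := by
      refine tendsto_const_nhds.congr fun n => ?_
      exact (Function.iterate_fixed h n).symm
    exact hyx (tendsto_nhds_unique this hlim)
  have hVy : V y < V x := by
    have h1 : V y < V (hen c b hb y) :=
      lt_of_le_of_ne (hmono y hyK) fun h => hnf (hstr y hyK h.symm)
    have h2 : Monotone fun n : ℕ => V ((hen c b hb)^[n] y) :=
      monotone_nat_of_le_succ fun n => by
        rw [Function.iterate_succ_apply']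
        exact hmono _ (kfn c b hb hyK n)
    have h3 := h2.ge_of_tendsto ((hV.tendsto x).comp hlim) 1
    exact h1.trans_le h3
  -- backward orbit
  set z : ℕ → E := fun n => (hen c b hb).symm^[n] y with hz
  have hzK : ∀ n, z n ∈ KK c b hb := fun n => kgn c b hb hyK n
  have hfz : ∀ n, hen c b hb (z (n + 1)) = z n := fun n => by
    simp only [hz]
    rw [Function.iterate_succ_apply', Homeomorph.apply_symm_apply]
  have hanti : ∀ n, V (z (n + 1)) ≤ V (z n) := fun n => by
    have := hmono _ (hzK (n + 1))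
    rwa [hfz n] at this
  obtain ⟨B, hB⟩ := (MD.kk_compact c b hb).bddBelow_image hV.continuousOn
  obtain ⟨ℓ, -, hℓ, hℓle⟩ := lim_anti (fun n => V (z n)) B
    (fun n => hB (mem_image_of_mem V (hzK n))) hanti
  obtain ⟨q, hqK, φ, hφ, hq⟩ := (MD.kk_compact c b hb).tendsto_subseq
    (fun n => hzK (n + 1))
  have hq' : Tendsto (fun n => z (φ n + 1)) atTop (𝓝 q) := hq
  have hVq : V q = ℓ := by
    have h1 := (hV.tendsto q).comp hq'
    have h2 : Tendsto (fun n => V (z (φ n + 1))) atTop (𝓝 ℓ) :=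
      (hℓ.comp (tendsto_add_atTop_nat 1)).comp hφ.tendsto_atTop
    exact tendsto_nhds_unique h1 h2
  have hVfq : V (hen c b hb q) = ℓ := by
    have h1 := ((hV.comp (hen c b hb).continuous).tendsto q).comp hq'
    have h2 : Tendsto (fun n => V (z (φ n))) atTop (𝓝 ℓ) := hℓ.comp hφ.tendsto_atTop
    refine tendsto_nhds_unique h1 (h2.congr fun n => ?_)
    simp only [Function.comp]
    rw [hfz]
  have hqf : hen c b hb q = q := hstr q hqK (by rw [hVq, hVfq])
  have h1 := hmin q hqK hqf
  have h2 := hℓle 0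
  have h3 : z 0 = y := rfl
  rw [h3] at h2
  linarith

/-- the Lyapunov function -/
noncomputable def V (c b : ℝ) (z : E) : ℝ :=
  z.1 ^ 3 / 3 - (1 + b) * z.1 ^ 2 / 2 + c * z.1 - |b| / 2 * (z.1 - z.2) ^ 2

theorem V_cont (c b : ℝ) : Continuous (V c b) := by
  unfold V
  fun_prop

theorem V_pos (c b x y x' : ℝ) (h : x' = x ^ 2 + c - b * y) :
    (x' ^ 3 / 3 - (1 + b) * x' ^ 2 / 2 + c * x' - b / 2 * (x' - x) ^ 2) -
      (x ^ 3 / 3 - (1 + b) * x ^ 2 / 2 + c * x - b / 2 * (x - y) ^ 2) =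
    (x' - x) ^ 2 * ((1 - b) / 2 - b + (2 * x + x') / 3) + b / 2 * ((x' - x) - (x - y)) ^ 2 := by
  have h' : x ^ 2 = x' - c + b * y := by linarith
  linear_combination (x' - x) * h'

theorem V_neg (c b x y x' : ℝ) (h : x' = x ^ 2 + c - b * y) :
    (x' ^ 3 / 3 - (1 + b) * x' ^ 2 / 2 + c * x' - -b / 2 * (x' - x) ^ 2) -
      (x ^ 3 / 3 - (1 + b) * x ^ 2 / 2 + c * x - -b / 2 * (x - y) ^ 2) =
    (x' - x) ^ 2 * ((1 - b) / 2 + b + (2 * x + x') / 3) + -b / 2 * ((x' - x) + (x - y)) ^ 2 := by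
  have h' : x ^ 2 = x' - c + b * y := by linarith
  linear_combination (x' - x) * h'

/-- the step of the Lyapunov function -/
theorem V_step (c b : ℝ) (hb : b ≠ 0) (hK : ∀ z ∈ KK c b hb, |b| - (1 - b) / 2 ≤ z.1) (z : E)
    (hz : z ∈ KK c b hb) : V c b z ≤ V c b (hen c b hb z) ∧
    (V c b (hen c b hb z) = V c b z → hen c b hb z = z) := by
  have h1 := hK z hz
  have h2 := hK _ (kf c b hb hz)
  obtain ⟨x, y⟩ := z
  rw [MD.hen_apply] at h2 ⊢
  simp only at h1 h2 ⊢
  set x' := x ^ 2 + c - b * y with hx'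
  have key : ∀ A S : ℝ, 0 < |b| → 0 ≤ A → (A = 0 → x' = x) →
      (S = (x' - x) - (x - y) ∨ S = (x' - x) + (x - y)) →
      V c b (x', x) - V c b (x, y) = (x' - x) ^ 2 * A + |b| / 2 * S ^ 2 →
      V c b (x, y) ≤ V c b (x', x) ∧ (V c b (x', x) = V c b (x, y) → ((x', x) : E) = (x, y)) := by
    intro A S hbp hA hA0 hS h
    have e1 : 0 ≤ (x' - x) ^ 2 * A := mul_nonneg (sq_nonneg _) hA
    have e2 : 0 ≤ |b| / 2 * S ^ 2 := by positivity
    refine ⟨by linarith, fun heq => ?_⟩
    have e3 : (x' - x) ^ 2 * A = 0 := by linarith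
    have e4 : |b| / 2 * S ^ 2 = 0 := by linarith
    have e5 : x' = x := by
      rcases mul_eq_zero.1 e3 with h | h
      · have := pow_eq_zero_iff (two_ne_zero) |>.1 h
        linarith
      · exact hA0 h
    have e6 : S = 0 := by
      rcases mul_eq_zero.1 e4 with h | h
      · linarith
      · exact pow_eq_zero_iff (two_ne_zero) |>.1 h
    have e7 : x = y := by
      rcases hS with h | h <;> rw [e6, e5] at h <;> linarith
    rw [e5, ← e7]
  rcases lt_or_gt_of_ne hb with hneg | hpos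
  · have hab : |b| = -b := abs_of_neg hneg
    refine key ((1 - b) / 2 + b + (2 * x + x') / 3) ((x' - x) + (x - y)) (abs_pos.2 hb) ?_ ?_
      (Or.inr rfl) ?_
    · rw [hab] at h1 h2; linarith
    · intro h0; rw [hab] at h1 h2; linarith
    · unfold V; simp only; rw [hab]; exact V_neg c b x y x' hx'
  · have hab : |b| = b := abs_of_pos hpos
    refine key ((1 - b) / 2 - b + (2 * x + x') / 3) ((x' - x) - (x - y)) (abs_pos.2 hb) ?_ ?_
      (Or.inl rfl) ?_
    · rw [hab] at h1 h2; linarith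
    · intro h0; rw [hab] at h1 h2; linarith
    · unfold V; simp only; rw [hab]; exact V_pos c b x y x' hx'

/-- almost every point is fixed -/
theorem ae_fixed (c b : ℝ) (hb : b ≠ 0) (hb1 : |b| < 1) (W : E → ℝ) (hW : Continuous W)
    (hstep : ∀ z ∈ KK c b hb, W z ≤ W (hen c b hb z) ∧ (W (hen c b hb z) = W z → hen c b hb z = z))
    (μ : Measure E) [IsProbabilityMeasure μ]
    (hμ : MeasurePreserving (hen c b hb) μ μ) : ∀ᵐ x ∂μ, hen c b hb x = x := by
  have hKae : ∀ᵐ x ∂μ, x ∈ KK c b hb := MD.kk_ae c b hb hb1 μ hμ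
  obtain ⟨C, hC⟩ := (MD.kk_compact c b hb).exists_bound_of_continuousOn hW.continuousOn
  have hi : Integrable W μ :=
    Integrable.of_bound hW.aestronglyMeasurable C (hKae.mono fun x hx => hC x hx)
  have hi' : Integrable (fun x => W (hen c b hb x)) μ :=
    Integrable.of_bound (hW.comp (hen c b hb).continuous).aestronglyMeasurable C
      (hKae.mono fun x hx => hC _ (kf c b hb hx))
  have h0 : ∫ x, (W (hen c b hb x) - W x) ∂μ = 0 := by
    rw [integral_sub hi' hi]
    have := hμ.integral_comp (hen c b hb).measurableEmbedding W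
    rw [this, sub_self]
  have hnn : 0 ≤ᵐ[μ] fun x => W (hen c b hb x) - W x :=
    hKae.mono fun x hx => by
      have := (hstep x hx).1
      simpa using this
  have hz := (integral_eq_zero_iff_of_nonneg_ae hnn (hi'.sub hi)).1 h0
  filter_upwards [hz, hKae] with x hx hxK
  refine (hstep x hxK).2 ?_
  have : W (hen c b hb x) - W x = 0 := hx
  linarith

/-- fixed points -/
theorem fixed_form (c b : ℝ) (hb : b ≠ 0) (x : E) (hx : hen c b hb x = x) :
    ∃ t : ℝ, x = (t, t) ∧ t ^ 2 - (1 + b) * t + c = 0 := by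
  obtain ⟨u, v⟩ := x
  rw [MD.hen_apply] at hx
  have h1 := congrArg Prod.fst hx
  have h2 := congrArg Prod.snd hx
  simp only at h1 h2
  refine ⟨u, by rw [h2], ?_⟩
  rw [← h2] at h1
  linarith

/-- GRADIENT-LIKE MAPS -/
theorem grad (c b : ℝ) (hb : b ≠ 0) (hb1 : |b| < 1) (W : E → ℝ) (hW : Continuous W)
    (hWd : ∀ t : ℝ, W (t, t) = t ^ 3 / 3 - (1 + b) * t ^ 2 / 2 + c * t)
    (hK : (KK c b hb).Nonempty → c ≤ (1 + b) ^ 2 / 4 ∧ ∀ z ∈ KK c b hb,
      W z ≤ W (hen c b hb z) ∧ (W (hen c b hb z) = W z → hen c b hb z = z))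
    (hc : -(3 * (1 + b) ^ 2) / 4 < c) : MildlyDissipative c b := by
  refine ⟨hb1, ?_⟩
  intro μ hμ hμe hμs
  have hfp : MeasurePreserving (hen c b hb) μ μ := hμe.toMeasurePreserving
  have hKae : ∀ᵐ x ∂μ, x ∈ KK c b hb := MD.kk_ae c b hb hb1 μ hfp
  have hne : (KK c b hb).Nonempty := by
    obtain ⟨x, hx⟩ := hKae.exists
    exact ⟨x, hx⟩
  obtain ⟨hc4, hK'⟩ := hK hne
  obtain ⟨-, Λ, hΛ, -, hae⟩ := ME.measure_part c b hb hb1 μ hμ hμe hμs
  have hfix := ae_fixed c b hb hb1 W hW hK' μ hfp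
  have ha : 0 < 1 + b := by
    have := abs_lt.1 hb1
    linarith
  set δ := Real.sqrt ((1 + b) ^ 2 - 4 * c) with hδ
  have hδ0 : 0 ≤ δ := Real.sqrt_nonneg _
  have hδ2 : δ ^ 2 = (1 + b) ^ 2 - 4 * c := Real.sq_sqrt (by linarith)
  have hδ1 : δ < 2 * (1 + b) := by
    by_contra hcon
    rw [not_lt] at hcon
    nlinarith
  have hroots : ∀ t : ℝ, t ^ 2 - (1 + b) * t + c = 0 → t = (1 + b + δ) / 2 ∨
      t = (1 + b - δ) / 2 := by
    intro t ht
    have h : (t - (1 + b + δ) / 2) * (t - (1 + b - δ) / 2) = 0 := by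
      nlinarith
    rcases mul_eq_zero.1 h with h | h
    · left; linarith
    · right; linarith
  -- the lower fixed point has measure zero unless it is the upper one
  have hlow : ∀ᵐ x ∂μ, x = (((1 + b - δ) / 2, (1 + b - δ) / 2) : E) → δ = 0 := by
    rcases hδ0.eq_or_lt with h0 | h0
    · exact Eventually.of_forall fun x _ => h0.symm
    · set q : E := ((1 + b - δ) / 2, (1 + b - δ) / 2) with hq
      have hroot : ((1 + b - δ) / 2) ^ 2 - (1 + b) * ((1 + b - δ) / 2) + c = 0 := by
        nlinarith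
      have hfq : hen c b hb q = q := by
        rw [MD.hen_apply, hq]
        ext
        · simp only; linarith
        · rfl
      have hinv : (henonMap c b) ⁻¹' {q} = {q} := by
        ext z
        constructor
        · intro hz
          have hz' : hen c b hb z = q := hz
          exact (hen c b hb).injective (hz'.trans hfq.symm)
        · rintro rfl
          exact hfq
      rcases hμe.toPreErgodic.prob_eq_zero_or_one (measurableSet_singleton q) hinv with h | h
      · have : ∀ᵐ x ∂μ, x ≠ q := by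
          rw [ae_iff]
          simpa using h
        exact this.mono fun x hx h => absurd h hx
      · exact absurd (sink_fix c b _ hb hb1 hroot (by
          rw [abs_lt]; constructor <;> linarith) μ h) hμs
  filter_upwards [hae, hKae, hfix, hlow] with x hx hxK hxf hxl
  obtain ⟨γ, h1, h2, h3, h4, h5, h6, h7, -⟩ := hx
  have hxup : x = (((1 + b + δ) / 2, (1 + b + δ) / 2) : E) := by
    obtain ⟨t, rfl, ht⟩ := fixed_form c b hb x hxf
    rcases hroots t ht with h | h
    · rw [h]
    · have := hxl (by rw [h])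
      rw [h, this]
      simp
  have hmin : ∀ q ∈ KK c b hb, hen c b hb q = q → W x ≤ W q := by
    intro q _ hqf
    obtain ⟨t, rfl, ht⟩ := fixed_form c b hb q hqf
    rw [hxup, hWd, hWd]
    rcases hroots t ht with h | h
    · rw [h]
    · rw [h]
      have : 0 ≤ δ ^ 3 := by positivity
      nlinarith
  refine ⟨γ, h1, h2, h3, h4, h5, fun hbd => ?_, fun hbd => ?_⟩
  · have hy : γ 1 ∈ stableSet c b x := by rw [← h5]; exact mem_range_self 1
    refine no_point c b hb W hW (fun z hz => (hK' z hz).1)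
      (fun z hz => (hK' z hz).2) x hxf hmin (γ 1)
      (in_KK c b hb hb1 x _ hxK hy (h6 hbd 1 zero_le_one)) ?_ hy
    intro h
    have := h3 (h.trans h4.symm)
    norm_num at this
  · have hy : γ (-1) ∈ stableSet c b x := by rw [← h5]; exact mem_range_self (-1)
    refine no_point c b hb W hW (fun z hz => (hK' z hz).1)
      (fun z hz => (hK' z hz).2) x hxf hmin (γ (-1))
      (in_KK c b hb hb1 x _ hxK hy (h7 hbd (-1) (by norm_num))) ?_ hy
    intro h
    have := h3 (h.trans h4.symm)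
    norm_num at this

/-- maps whose bounded orbits satisfy `x ≥ |b| - (1 - b) / 2` -/
theorem grad1 (c b : ℝ) (hb : b ≠ 0) (hb1 : |b| < 1)
    (hK : (KK c b hb).Nonempty → c ≤ (1 + b) ^ 2 / 4 ∧
      ∀ z ∈ KK c b hb, |b| - (1 - b) / 2 ≤ z.1)
    (hc : -(3 * (1 + b) ^ 2) / 4 < c) : MildlyDissipative c b := by
  refine grad c b hb hb1 (V c b) (V_cont c b) (fun t => ?_)
    (fun hne => ⟨(hK hne).1, fun z hz => V_step c b hb (hK hne).2 z hz⟩) hc
  unfold V
  simp only
  ring

/-- region (i) -/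
theorem region_pos (c b : ℝ) (hb0 : 0 < b) (hb1 : b < 1) (hc : b ≤ c) : MildlyDissipative c b := by
  refine grad1 c b hb0.ne' (by rwa [abs_of_pos hb0]) (kpos c b hb0.ne' hb0 hb1 hc) ?_
  nlinarith [sq_nonneg (1 + b)]

end MR
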