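import Pool.Agent.Lib.MP_904526_R.G

/-!
# The horseshoe region `c < -2 (1 + |b|)²`

On the set of bounded orbits the differential of the map is expanding or its inverse is, for the
Poincare metric of the interval of square radius `P2` on each coordinate. No smooth curve consists of
bounded orbits.
-/

set_option autoImplicit false

open Set Filter Topology MeasureTheory

namespace MR

open MD (E hen KK)
open ME (henonMap stableSet SupportedOnSink MildlyDissipative cx Km)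

/-- the Schwarz lemma inequality -/
theorem key_ineq (b c A R P2 a e x : ℝ) (hA : A = 1 + |b|) (hR : R ^ 2 = A * R - c)
    (h2 : 2 * A < R) (hP : P2 = R ^ 2 + 2 * A * (R - 2 * A)) (hx : x ^ 2 = a - c + b * e)
    (hxR : |x| ≤ R) :
    (P2 - a ^ 2) + |b| * (P2 - e ^ 2) + 2 * A ^ 2 * (R - 2 * A) ≤ 2 * |x| * (P2 - x ^ 2) := by
  have hb := abs_nonneg b
  have hA0 : 0 < A := by linarith
  have cs : (a + b * e) ^ 2 ≤ A * (a ^ 2 + |b| * e ^ 2) := by
    have h1 : b ^ 2 = |b| ^ 2 := (sq_abs b).symm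
    have h3 : 2 * (b * (a * e)) ≤ |b| * (a ^ 2 + e ^ 2) := by
      calc 2 * (b * (a * e)) ≤ 2 * |b * (a * e)| := by linarith [le_abs_self (b * (a * e))]
        _ = |b| * (2 * |a| * |e|) := by rw [abs_mul, abs_mul]; ring
        _ ≤ |b| * (|a| ^ 2 + |e| ^ 2) :=
            mul_le_mul_of_nonneg_left (two_mul_le_add_sq |a| |e|) hb
        _ = _ := by rw [sq_abs, sq_abs]
    have h4 : A * (a ^ 2 + |b| * e ^ 2) - (a + b * e) ^ 2 =
        |b| * (a ^ 2 + e ^ 2) - 2 * (b * (a * e)) + (|b| ^ 2 - b ^ 2) * e ^ 2 := by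
      rw [hA]; ring
    rw [h1] at h4
    nlinarith
  obtain ⟨w, hw⟩ : ∃ w, w = |x| := ⟨_, rfl⟩
  have hw0 : 0 ≤ w := by rw [hw]; exact abs_nonneg x
  have hw2 : x ^ 2 = w ^ 2 := by rw [hw, sq_abs]
  rw [← hw] at hxR ⊢
  rw [hw2] at hx ⊢
  have hs : a + b * e = w ^ 2 + c := by linarith
  rw [hs] at cs
  -- the one variable inequality
  have hq : 4 * A ^ 2 * (R - 2 * A) * (A - w) ≤ (R - w) ^ 2 * ((R + w) * (R - 2 * A + w)) := by
    have hT : 0 < R - 2 * A := by linarith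
    have hr : 0 ≤ (R - w) ^ 2 * ((R + w) * (R - 2 * A + w)) :=
      mul_nonneg (sq_nonneg _) (mul_nonneg (by linarith) (by linarith))
    rcases le_or_gt A w with h | h
    · have : 4 * A ^ 2 * (R - 2 * A) * (A - w) ≤ 0 :=
        mul_nonpos_of_nonneg_of_nonpos (mul_nonneg (by positivity) hT.le) (by linarith)
      linarith
    · have e1 : 2 * A * (R - 2 * A) ≤ (R + w) * (R - 2 * A + w) :=
        mul_le_mul (by linarith) (by linarith) hT.le (by linarith)
      have e2 : 2 * A * (A - w) ≤ (R - w) ^ 2 := by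
        have e3 : (2 * A - w) ^ 2 ≤ (R - w) ^ 2 :=
          pow_le_pow_left₀ (by linarith) (by linarith) 2
        have e4 : 0 ≤ A * (A - w) := mul_nonneg hA0.le (by linarith)
        have e5 : (2 * A - w) ^ 2 = w ^ 2 + 4 * (A * (A - w)) := by ring
        nlinarith [sq_nonneg w]
      calc 4 * A ^ 2 * (R - 2 * A) * (A - w) =
            (2 * A * (A - w)) * (2 * A * (R - 2 * A)) := by ring
        _ ≤ (R - w) ^ 2 * ((R + w) * (R - 2 * A + w)) :=
            mul_le_mul e2 e1 (mul_nonneg (by positivity) hT.le) (sq_nonneg _)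
  have hc : c = A * R - R ^ 2 := by linarith
  have main : A * ((P2 - a ^ 2) + |b| * (P2 - e ^ 2) + 2 * A ^ 2 * (R - 2 * A)) ≤
      A * (2 * w * (P2 - w ^ 2)) := by
    have e1 : A * ((P2 - a ^ 2) + |b| * (P2 - e ^ 2)) =
        A * A * P2 - A * (a ^ 2 + |b| * e ^ 2) := by
      have : |b| = A - 1 := by linarith
      rw [this]; ring
    have e2 : A * (2 * w * (P2 - w ^ 2)) - (A * A * P2 - (w ^ 2 + c) ^ 2) -
        2 * A ^ 3 * (R - 2 * A) =
        (R - w) ^ 2 * ((R + w) * (R - 2 * A + w)) - 4 * A ^ 2 * (R - 2 * A) * (A - w) := by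
      rw [hP, hc]; ring
    have e3 : A * ((P2 - a ^ 2) + |b| * (P2 - e ^ 2) + 2 * A ^ 2 * (R - 2 * A)) =
        A * ((P2 - a ^ 2) + |b| * (P2 - e ^ 2)) + 2 * A ^ 3 * (R - 2 * A) := by ring
    rw [e3, e1]
    linarith
  exact le_of_mul_le_mul_left main hA0

/-- derivatives grow along the recursion -/
theorem grow (c p q P2 R ε kap : ℝ) (X Y : ℕ → ℝ → ℝ) (u v : ℝ → ℝ) (I : Set ℝ)
    (hq : 0 < |q|) (hP : R ^ 2 < P2) (hε : 0 < ε) (hk : 0 ≤ kap)
    (hX : ∀ n, X (n + 1) = fun t => (X n t ^ 2 + c - p * Y n t) / q)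
    (hY : ∀ n, Y (n + 1) = X n)
    (hu : ∀ t ∈ I, HasDerivAt (X 0) (u t) t) (hv : ∀ t ∈ I, HasDerivAt (Y 0) (v t) t)
    (huv : ∀ t ∈ I, |v t| * (P2 - X 0 t ^ 2) ≤ |u t| * (P2 - Y 0 t ^ 2))
    (hku : ∀ t ∈ I, kap * (P2 - X 0 t ^ 2) ≤ |u t|)
    (hB : ∀ n, ∀ t ∈ I, |X n t| ≤ R)
    (hQ : ∀ n, ∀ t ∈ I, |q| * (P2 - X (n + 1) t ^ 2) + |p| * (P2 - Y n t ^ 2) + ε ≤
      2 * |X n t| * (P2 - X n t ^ 2)) (n : ℕ) :
    ∀ t ∈ I, ∃ u' v' : ℝ, HasDerivAt (X n) u' t ∧ HasDerivAt (Y n) v' t ∧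
      |v'| * (P2 - X n t ^ 2) ≤ |u'| * (P2 - Y n t ^ 2) ∧
      (1 + ε / (|q| * P2)) ^ n * kap * (P2 - X n t ^ 2) ≤ |u'| := by
  have hP0 : 0 < P2 := (sq_nonneg R).trans_lt hP
  have hD : ∀ n, ∀ t ∈ I, 0 < P2 - X n t ^ 2 := fun n t ht => by
    have : |X n t| ^ 2 ≤ R ^ 2 := pow_le_pow_left₀ (abs_nonneg _) (hB n t ht) 2
    rw [sq_abs] at this
    linarith
  induction n with
  | zero =>
    intro t ht
    refine ⟨u t, v t, hu t ht, hv t ht, huv t ht, ?_⟩
    rw [pow_zero, one_mul]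
    exact hku t ht
  | succ n ih =>
    intro t ht
    obtain ⟨u', v', h1, h2, h3, h4⟩ := ih t ht
    have hd : HasDerivAt (X (n + 1)) ((2 * X n t * u' - p * v') / q) t := by
      rw [hX n]
      have h5 : HasDerivAt (fun t => X n t ^ 2) (2 * X n t * u') t := by
        have := h1.fun_pow 2
        simpa using this
      exact (((h5.add_const c).sub (h2.const_mul p)).div_const q)
    have hDn := hD n t ht
    have hDn' := hD (n + 1) t ht
    set D := P2 - X n t ^ 2 with hDdef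
    set D' := P2 - X (n + 1) t ^ 2 with hD'def
    set w := |(2 * X n t * u' - p * v') / q| with hw
    have hstar : |u'| * (|q| * D' + ε) ≤ w * |q| * D := by
      have e0 : w * |q| = |2 * X n t * u' - p * v'| := by
        rw [hw, abs_div, div_mul_cancel₀ _ hq.ne']
      have e1 : |2 * X n t * u'| - |p * v'| ≤ |2 * X n t * u' - p * v'| := abs_sub_abs_le_abs_sub _ _
      have e2 : |2 * X n t * u'| = 2 * |X n t| * |u'| := by
        rw [abs_mul, abs_mul, abs_two]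
      have e3 : |p * v'| * D ≤ |p| * (|u'| * (P2 - Y n t ^ 2)) := by
        rw [abs_mul, mul_assoc]
        exact mul_le_mul_of_nonneg_left h3 (abs_nonneg p)
      have e4 : |u'| * (|q| * D' + |p| * (P2 - Y n t ^ 2) + ε) ≤ |u'| * (2 * |X n t| * D) :=
        mul_le_mul_of_nonneg_left (hQ n t ht) (abs_nonneg _)
      have e5 : (|2 * X n t * u'| - |p * v'|) * D ≤ w * |q| * D := by
        rw [e0]; exact mul_le_mul_of_nonneg_right e1 hDn.le
      rw [e2] at e5
      nlinarith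
    have hw0 : 0 ≤ w := abs_nonneg _
    refine ⟨_, u', hd, by rw [hY n]; exact h1, ?_, ?_⟩
    · rw [hY n]
      show |u'| * D' ≤ w * D
      have e1 : |q| * (|u'| * D') ≤ |q| * (w * D) := by
        have : 0 ≤ |u'| * ε := mul_nonneg (abs_nonneg _) hε.le
        nlinarith
      exact le_of_mul_le_mul_left e1 hq
    · show (1 + ε / (|q| * P2)) ^ (n + 1) * kap * D' ≤ w
      set lam := 1 + ε / (|q| * P2) with hlam
      have hlam0 : 0 ≤ lam := by positivity
      have e1 : lam * (|q| * D') ≤ |q| * D' + ε := by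
        have e2 : D' ≤ P2 := by rw [hD'def]; linarith [sq_nonneg (X (n + 1) t)]
        have e3 : ε / (|q| * P2) * (|q| * D') = ε * (D' / P2) := by
          field_simp
        have e4 : D' / P2 ≤ 1 := (div_le_one hP0).2 e2
        have e5 : ε * (D' / P2) ≤ ε * 1 := mul_le_mul_of_nonneg_left e4 hε.le
        rw [hlam, add_mul, one_mul, e3]
        linarith
      have e6 : lam ^ n * kap * D * (lam * (|q| * D')) ≤ w * |q| * D := by
        refine le_trans ?_ hstar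
        exact mul_le_mul h4 e1 (by positivity) (abs_nonneg _)
      have e7 : (|q| * D) * (lam ^ (n + 1) * kap * D') ≤ (|q| * D) * w := by
        calc (|q| * D) * (lam ^ (n + 1) * kap * D') =
              lam ^ n * kap * D * (lam * (|q| * D')) := by ring
          _ ≤ w * |q| * D := e6
          _ = (|q| * D) * w := by ring
      exact le_of_mul_le_mul_left e7 (mul_pos hq hDn)

/-- an expanded curve leaves every bounded set -/
theorem expand (c p q P2 R ε kap t0 t1 : ℝ) (X Y : ℕ → ℝ → ℝ) (u v : ℝ → ℝ)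
    (hq : 0 < |q|) (hP : R ^ 2 < P2) (hε : 0 < ε) (hk : 0 < kap) (ht : t0 < t1)
    (hX : ∀ n, X (n + 1) = fun t => (X n t ^ 2 + c - p * Y n t) / q)
    (hY : ∀ n, Y (n + 1) = X n)
    (hu : ∀ t ∈ Icc t0 t1, HasDerivAt (X 0) (u t) t)
    (hv : ∀ t ∈ Icc t0 t1, HasDerivAt (Y 0) (v t) t)
    (huv : ∀ t ∈ Icc t0 t1, |v t| * (P2 - X 0 t ^ 2) ≤ |u t| * (P2 - Y 0 t ^ 2))
    (hku : ∀ t ∈ Icc t0 t1, kap * (P2 - X 0 t ^ 2) ≤ |u t|)
    (hB : ∀ n, ∀ t ∈ Icc t0 t1, |X n t| ≤ R)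
    (hQ : ∀ n, ∀ t ∈ Icc t0 t1, |q| * (P2 - X (n + 1) t ^ 2) + |p| * (P2 - Y n t ^ 2) + ε ≤
      2 * |X n t| * (P2 - X n t ^ 2)) : False := by
  have hg := grow c p q P2 R ε kap X Y u v (Icc t0 t1) hq hP hε hk.le hX hY hu hv huv hku hB hQ
  have hP0 : 0 < P2 := (sq_nonneg R).trans_lt hP
  have hl : 1 < 1 + ε / (|q| * P2) := by
    have : 0 < ε / (|q| * P2) := by positivity
    linarith
  have hpos : 0 < kap * (P2 - R ^ 2) * (t1 - t0) :=
    mul_pos (mul_pos hk (by linarith)) (by linarith)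
  obtain ⟨n, hn⟩ := pow_unbounded_of_one_lt (2 * R / (kap * (P2 - R ^ 2) * (t1 - t0))) hl
  rw [div_lt_iff₀ hpos] at hn
  obtain ⟨ξ, hξ, hs⟩ := exists_deriv_eq_slope (X n) ht
    (fun t htt => by
      obtain ⟨u', v', h1, -⟩ := hg n t htt
      exact h1.continuousAt.continuousWithinAt)
    (fun t htt => by
      obtain ⟨u', v', h1, -⟩ := hg n t (Ioo_subset_Icc_self htt)
      exact h1.differentiableAt.differentiableWithinAt)
  obtain ⟨u', v', h1, -, -, h4⟩ := hg n ξ (Ioo_subset_Icc_self hξ)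
  rw [h1.deriv, eq_div_iff (by linarith)] at hs
  have e1 : |u'| * (t1 - t0) = |X n t1 - X n t0| := by
    rw [← hs, abs_mul, abs_of_pos (show 0 < t1 - t0 by linarith)]
  have e2 : |X n t1 - X n t0| ≤ 2 * R := by
    have e3 := hB n t1 ⟨ht.le, le_rfl⟩
    have e4 := hB n t0 ⟨le_rfl, ht.le⟩
    have e5 := abs_sub (X n t1) (X n t0)
    linarith
  have e7 : (1 + ε / (|q| * P2)) ^ n * kap * (P2 - R ^ 2) ≤ |u'| := by
    refine le_trans ?_ h4
    refine mul_le_mul_of_nonneg_left ?_ (by positivity)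
    have : |X n ξ| ^ 2 ≤ R ^ 2 :=
      pow_le_pow_left₀ (abs_nonneg _) (hB n ξ (Ioo_subset_Icc_self hξ)) 2
    rw [sq_abs] at this
    linarith
  have e6 : (1 + ε / (|q| * P2)) ^ n * kap * (P2 - R ^ 2) * (t1 - t0) ≤ |u'| * (t1 - t0) :=
    mul_le_mul_of_nonneg_right e7 (by linarith)
  have e8 : (1 + ε / (|q| * P2)) ^ n * kap * (P2 - R ^ 2) * (t1 - t0) =
      (1 + ε / (|q| * P2)) ^ n * (kap * (P2 - R ^ 2) * (t1 - t0)) := by ring
  linarith

/-- the bounded orbits in the horseshoe region -/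
theorem kH (c b : ℝ) (hb : b ≠ 0) (hc : c < -2 * (1 + |b|) ^ 2) (h : (KK c b hb).Nonempty) :
    ∃ R P2 ε : ℝ, 0 < ε ∧ R ^ 2 < P2 ∧ (∀ z ∈ KK c b hb, |z.1| ≤ R ∧ |z.2| ≤ R) ∧
      ∀ a e x : ℝ, x ^ 2 = a - c + b * e → |x| ≤ R →
        (P2 - a ^ 2) + |b| * (P2 - e ^ 2) + ε ≤ 2 * |x| * (P2 - x ^ 2) := by
  obtain ⟨R, hR0, hR, hKR⟩ := kR c b hb h
  set A := 1 + |b| with hA
  have hA0 : 0 < A := by have := abs_nonneg b; linarith
  set s := Real.sqrt (A ^ 2 - 4 * c) with hs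
  have hA2 : 0 < A ^ 2 := by positivity
  have hs0 : 0 ≤ s := Real.sqrt_nonneg _
  have hs2 : s ^ 2 = A ^ 2 - 4 * c := Real.sq_sqrt (by linarith)
  have hsA : 3 * A < s := by
    rw [hs]
    refine Real.lt_sqrt_of_sq_lt ?_
    nlinarith
  set S := (A + s) / 2 with hS
  have hS2 : S ^ 2 = A * S - c := by
    rw [hS]; nlinarith
  have hRS : R ≤ S := by
    by_contra hcon
    rw [not_le] at hcon
    have h1 : (R - S) * (R - (A - s) / 2) ≤ 0 := by rw [hS]; nlinarith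
    have h2 : 0 < (R - S) * (R - (A - s) / 2) :=
      mul_pos (by linarith) (by rw [hS] at hcon; linarith)
    linarith
  have h2A : 2 * A < S := by rw [hS]; linarith
  refine ⟨S, S ^ 2 + 2 * A * (S - 2 * A), 2 * A ^ 2 * (S - 2 * A), ?_, ?_, fun z hz => ?_,
    fun a e x hx hxS => ?_⟩
  · exact mul_pos (by positivity) (by linarith)
  · have : 0 < 2 * A * (S - 2 * A) := mul_pos (by linarith) (by linarith)
    linarith
  · exact ⟨(hKR z hz).1.trans hRS, (hKR z hz).2.trans hRS⟩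
  · exact key_ineq b c A S _ a e x hA hS2 h2A rfl hx hxS

/-- no smooth curve consists of bounded orbits -/
theorem no_curve (c b : ℝ) (hb : b ≠ 0) (hc : c < -2 * (1 + |b|) ^ 2) (γ : ℝ → E)
    (hγ : ContDiff ℝ 1 γ) (hγ' : ∀ t, deriv γ t ≠ 0) (hK : ∀ t, 0 ≤ t → γ t ∈ KK c b hb) :
    False := by
  obtain ⟨R, P2, ε, hε, hP, hKR, hkey⟩ := kH c b hb hc ⟨_, hK 0 le_rfl⟩
  have hP0 : 0 < P2 := (sq_nonneg R).trans_lt hP
  have hbp : 0 < |b| := abs_pos.2 hb
  have hdiff : Differentiable ℝ γ := hγ.differentiable one_ne_zero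
  have hdc : Continuous (deriv γ) := hγ.continuous_deriv le_rfl
  have hγc : Continuous γ := hγ.continuous
  have hd1 : ∀ t, HasDerivAt (fun t => (γ t).1) (deriv γ t).1 t := fun t =>
    (hdiff t).hasDerivAt.fst
  have hd2 : ∀ t, HasDerivAt (fun t => (γ t).2) (deriv γ t).2 t := fun t =>
    (hdiff t).hasDerivAt.snd
  have hweak : ∀ k y r : ℝ, 0 < k → k ≤ |y| → k / P2 * (P2 - r ^ 2) ≤ |y| := by
    intro k y r hk hky
    have e1 : k / P2 * (P2 - r ^ 2) ≤ k / P2 * P2 :=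
      mul_le_mul_of_nonneg_left (by linarith [sq_nonneg r]) (by positivity)
    rw [div_mul_cancel₀ _ hP0.ne'] at e1
    linarith
  -- forward
  have fwd : ∀ t0 t1 kap : ℝ, 0 ≤ t0 → t0 < t1 → 0 < kap →
      (∀ t ∈ Icc t0 t1, |(deriv γ t).2| * (P2 - (γ t).1 ^ 2) ≤
        |(deriv γ t).1| * (P2 - (γ t).2 ^ 2) ∧ kap ≤ |(deriv γ t).1|) → False := by
    intro t0 t1 kap h0 h01 hk h
    refine expand c b 1 P2 R ε (kap / P2) t0 t1
      (fun n t => ((hen c b hb)^[n] (γ t)).1) (fun n t => ((hen c b hb)^[n] (γ t)).2)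
      (fun t => (deriv γ t).1) (fun t => (deriv γ t).2) (by simp) hP hε (by positivity) h01
      (fun n => ?_) (fun n => ?_) (fun t _ => hd1 t) (fun t _ => hd2 t)
      (fun t ht => (h t ht).1) (fun t ht => hweak _ _ _ hk (h t ht).2)
      (fun n t ht => (hKR _ (kfn c b hb (hK t (h0.trans ht.1)) n)).1) (fun n t ht => ?_)
    · funext t
      rw [Function.iterate_succ_apply', MD.hen_apply, div_one]
    · funext t
      rw [Function.iterate_succ_apply', MD.hen_apply]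
    · have hz := kfn c b hb (hK t (h0.trans ht.1)) n
      have e1 := hkey ((hen c b hb)^[n + 1] (γ t)).1 ((hen c b hb)^[n] (γ t)).2
        ((hen c b hb)^[n] (γ t)).1 (by
          rw [Function.iterate_succ_apply', MD.hen_apply]
          simp only
          ring) (hKR _ hz).1
      rw [abs_one, one_mul]
      exact e1
  have bwd : ∀ t0 t1 kap : ℝ, 0 ≤ t0 → t0 < t1 → 0 < kap →
      (∀ t ∈ Icc t0 t1, |(deriv γ t).1| * (P2 - (γ t).2 ^ 2) ≤
        |(deriv γ t).2| * (P2 - (γ t).1 ^ 2) ∧ kap ≤ |(deriv γ t).2|) → False := by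
    intro t0 t1 kap h0 h01 hk h
    refine expand c 1 b P2 R ε (kap / P2) t0 t1
      (fun n t => ((hen c b hb).symm^[n] (γ t)).2) (fun n t => ((hen c b hb).symm^[n] (γ t)).1)
      (fun t => (deriv γ t).2) (fun t => (deriv γ t).1) hbp hP hε (by positivity) h01
      (fun n => ?_) (fun n => ?_) (fun t _ => hd2 t) (fun t _ => hd1 t)
      (fun t ht => (h t ht).1) (fun t ht => hweak _ _ _ hk (h t ht).2)
      (fun n t ht => (hKR _ (kgn c b hb (hK t (h0.trans ht.1)) n)).2) (fun n t ht => ?_)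
    · funext t
      rw [Function.iterate_succ_apply', MD.hen_symm_apply, one_mul]
    · funext t
      rw [Function.iterate_succ_apply', MD.hen_symm_apply]
    · have hz := kgn c b hb (hK t (h0.trans ht.1)) n
      have e1 := hkey ((hen c b hb).symm^[n] (γ t)).1 ((hen c b hb).symm^[n + 1] (γ t)).2
        ((hen c b hb).symm^[n] (γ t)).2 (by
          rw [Function.iterate_succ_apply', MD.hen_symm_apply]
          simp only
          field_simp
          ring) (hKR _ hz).2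
      rw [abs_one, one_mul]
      linarith
  have hc1 : Continuous fun t => |(deriv γ t).1| := hdc.fst.abs
  have hc2 : Continuous fun t => |(deriv γ t).2| := hdc.snd.abs
  have hm1 : Continuous fun t => |(deriv γ t).1| * (P2 - (γ t).2 ^ 2) :=
    hc1.mul (continuous_const.sub (hγc.snd.pow 2))
  have hm2 : Continuous fun t => |(deriv γ t).2| * (P2 - (γ t).1 ^ 2) :=
    hc2.mul (continuous_const.sub (hγc.fst.pow 2))
  have hpos1 : ∀ t, 0 ≤ t → 0 < P2 - (γ t).1 ^ 2 := fun t ht => by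
    have : |(γ t).1| ^ 2 ≤ R ^ 2 := pow_le_pow_left₀ (abs_nonneg _) (hKR _ (hK t ht)).1 2
    rw [sq_abs] at this
    linarith
  have hpos2 : ∀ t, 0 ≤ t → 0 < P2 - (γ t).2 ^ 2 := fun t ht => by
    have : |(γ t).2| ^ 2 ≤ R ^ 2 := pow_le_pow_left₀ (abs_nonneg _) (hKR _ (hK t ht)).2 2
    rw [sq_abs] at this
    linarith
  by_cases hcase : ∃ t ∈ Ioo (0 : ℝ) 1, |(deriv γ t).2| * (P2 - (γ t).1 ^ 2) <
      |(deriv γ t).1| * (P2 - (γ t).2 ^ 2)
  · obtain ⟨t, ht, hlt⟩ := hcase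
    have hpos : 0 < |(deriv γ t).1| := by
      refine lt_of_le_of_ne (abs_nonneg _) fun h0 => ?_
      rw [← h0, zero_mul] at hlt
      have := mul_nonneg (abs_nonneg (deriv γ t).2) (hpos1 t ht.1.le).le
      linarith
    have ho : IsOpen {s : ℝ | s ∈ Ioo (0 : ℝ) 1 ∧ |(deriv γ s).2| * (P2 - (γ s).1 ^ 2) <
        |(deriv γ s).1| * (P2 - (γ s).2 ^ 2) ∧ |(deriv γ t).1| / 2 < |(deriv γ s).1|} :=
      isOpen_Ioo.inter ((isOpen_lt hm2 hm1).inter (isOpen_lt continuous_const hc1))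
    obtain ⟨η, hη, hball⟩ := Metric.isOpen_iff.1 ho t ⟨ht, hlt, by linarith⟩
    have hsub : ∀ s ∈ Icc t (t + η / 2), s ∈ {s : ℝ | s ∈ Ioo (0 : ℝ) 1 ∧
        |(deriv γ s).2| * (P2 - (γ s).1 ^ 2) < |(deriv γ s).1| * (P2 - (γ s).2 ^ 2) ∧
        |(deriv γ t).1| / 2 < |(deriv γ s).1|} := by
      intro s hs
      refine hball ?_
      rw [Metric.mem_ball, Real.dist_eq, abs_of_nonneg (by linarith [hs.1])]
      linarith [hs.2]
    exact fwd t (t + η / 2) (|(deriv γ t).1| / 2) ht.1.le (by linarith) (by linarith)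
      fun s hs => ⟨(hsub s hs).2.1.le, (hsub s hs).2.2.le⟩
  · have hcase' : ∀ t ∈ Ioo (0 : ℝ) 1, |(deriv γ t).1| * (P2 - (γ t).2 ^ 2) ≤
        |(deriv γ t).2| * (P2 - (γ t).1 ^ 2) := fun t ht => by
      by_contra h
      exact hcase ⟨t, ht, not_le.1 h⟩
    have hsub : ∀ t ∈ Icc (1 / 4 : ℝ) (3 / 4), t ∈ Ioo (0 : ℝ) 1 := fun t ht =>
      ⟨by linarith [ht.1], by linarith [ht.2]⟩
    obtain ⟨tm, htm, hmin⟩ := (isCompact_Icc (a := (1 / 4 : ℝ)) (b := 3 / 4)).exists_isMinOn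
      ⟨1 / 4, by constructor <;> norm_num⟩ hc2.continuousOn
    have hpos : 0 < |(deriv γ tm).2| := by
      refine lt_of_le_of_ne (abs_nonneg _) fun h0 => hγ' tm ?_
      have h1 := hcase' tm (hsub tm htm)
      rw [← h0, zero_mul] at h1
      have h2 : |(deriv γ tm).1| = 0 := by
        by_contra hne
        have h3 : 0 < |(deriv γ tm).1| := lt_of_le_of_ne (abs_nonneg _) (Ne.symm hne)
        have := mul_pos h3 (hpos2 tm (hsub tm htm).1.le)
        linarith
      exact Prod.ext (abs_eq_zero.1 h2) (abs_eq_zero.1 h0.symm)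
    exact bwd (1 / 4) (3 / 4) |(deriv γ tm).2| (by norm_num) (by norm_num) hpos
      fun t ht => ⟨hcase' t (hsub t ht), hmin ht⟩

/-- region (iii) -/
theorem region_shoe (c b : ℝ) (hb0 : 0 < |b|) (hb1 : |b| < 1)
    (hc : c < -2 * (1 + |b|) ^ 2) : MildlyDissipative c b := by
  have hb : b ≠ 0 := abs_pos.1 hb0
  refine ⟨hb1, ?_⟩
  intro μ hμ hμe hμs
  have hfp : MeasurePreserving (hen c b hb) μ μ := hμe.toMeasurePreserving
  have hKae : ∀ᵐ x ∂μ, x ∈ KK c b hb := MD.kk_ae c b hb hb1 μ hfp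
  obtain ⟨-, Λ, hΛ, -, hae⟩ := ME.measure_part c b hb hb1 μ hμ hμe hμs
  filter_upwards [hae, hKae] with x hx hxK
  obtain ⟨γ, h1, h2, h3, h4, h5, h6, h7, -⟩ := hx
  refine ⟨γ, h1, h2, h3, h4, h5, fun hbd => ?_, fun hbd => ?_⟩
  · refine no_curve c b hb hc γ h1 h2 fun t ht => ?_
    exact in_KK c b hb hb1 x _ hxK (by rw [← h5]; exact mem_range_self t) (h6 hbd t ht)
  · refine no_curve c b hb hc (fun t => γ (-t)) (h1.comp contDiff_neg) (fun t => ?_)
      fun t ht => ?_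
    · rw [deriv_comp_neg]
      exact neg_ne_zero.2 (h2 (-t))
    · exact in_KK c b hb hb1 x _ hxK (by rw [← h5]; exact mem_range_self (-t))
        (h7 hbd (-t) (by linarith))

end MR
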