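import Pool.Agent.Lib.MP_904526_R.A
import Pool.Agent.Lib.MP_904526_an.F2

/-!
# A priori bounds for the set of bounded orbits of a real Henon map
-/

set_option autoImplicit false

open Set Filter Topology

namespace MR

open MD (E hen KK)

variable (c b : ℝ) (hb : b ≠ 0)

theorem kf {z : E} (hz : z ∈ KK c b hb) : hen c b hb z ∈ KK c b hb :=
  (MD.kk_inv c b hb z).2 hz

theorem kg {z : E} (hz : z ∈ KK c b hb) : (hen c b hb).symm z ∈ KK c b hb := by
  rw [← MD.kk_inv c b hb, Homeomorph.apply_symm_apply]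
  exact hz

theorem kgn {z : E} (hz : z ∈ KK c b hb) (n : ℕ) : (hen c b hb).symm^[n] z ∈ KK c b hb := by
  induction n with
  | zero => exact hz
  | succ n ih => rw [Function.iterate_succ_apply']; exact kg c b hb ih

theorem kfn {z : E} (hz : z ∈ KK c b hb) (n : ℕ) : (hen c b hb)^[n] z ∈ KK c b hb := by
  induction n with
  | zero => exact hz
  | succ n ih => rw [Function.iterate_succ_apply']; exact kf c b hb ih

/-- the two coordinates of a point of K are first coordinates of points of K -/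
theorem snd_eq (z : E) : z.2 = ((hen c b hb).symm z).1 := rfl

/-- the largest modulus -/
theorem kR (h : (KK c b hb).Nonempty) : ∃ R : ℝ, 0 ≤ R ∧ R ^ 2 ≤ (1 + |b|) * R - c ∧
    ∀ z ∈ KK c b hb, |z.1| ≤ R ∧ |z.2| ≤ R := by
  obtain ⟨z0, hz0, hmax⟩ := (MD.kk_compact c b hb).exists_isMaxOn h
    (f := fun z : E => |z.1|) (by fun_prop)
  have hmax' : ∀ z ∈ KK c b hb, |z.1| ≤ |z0.1| := fun z hz => hmax hz
  refine ⟨|z0.1|, abs_nonneg _, ?_, fun z hz => ⟨hmax' z hz, ?_⟩⟩
  · have h1 := hmax' _ (kf c b hb hz0)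
    have h2 := hmax' _ (kg c b hb hz0)
    rw [MD.hen_apply] at h1
    rw [MD.hen_symm_apply] at h2
    simp only at h1 h2
    have h3 := le_abs_self (z0.1 ^ 2 + c - b * z0.2)
    have h4 : b * z0.2 ≤ |b| * |z0.1| := by
      calc b * z0.2 ≤ |b * z0.2| := le_abs_self _
        _ = |b| * |z0.2| := abs_mul _ _
        _ ≤ |b| * |z0.1| := mul_le_mul_of_nonneg_left h2 (abs_nonneg _)
    rw [sq_abs]
    linarith
  · have := hmax' _ (kg c b hb hz)
    rwa [MD.hen_symm_apply] at this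

/-- the smallest first coordinate, for b < 0 -/
theorem kmin (hbn : b < 0) (h : (KK c b hb).Nonempty) : ∃ m : ℝ, c ≤ (1 + b) * m ∧
    (0 ≤ m → m ^ 2 + c ≤ (1 + b) * m) ∧ ∀ z ∈ KK c b hb, m ≤ z.1 := by
  obtain ⟨z0, hz0, hmin⟩ := (MD.kk_compact c b hb).exists_isMinOn h
    (f := fun z : E => z.1) (by fun_prop)
  have hmin' : ∀ z ∈ KK c b hb, z0.1 ≤ z.1 := fun z hz => hmin hz
  have h1 := kg c b hb hz0
  have h2 := kg c b hb h1
  have h3 := hmin' _ h1
  have h4 := hmin' _ h2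
  have h5 : z0.1 = ((hen c b hb).symm z0).1 ^ 2 + c - b * ((hen c b hb).symm z0).2 := by
    have := congrArg Prod.fst ((hen c b hb).apply_symm_apply z0)
    rw [MD.hen_apply] at this
    exact this.symm
  have h6 : ((hen c b hb).symm ((hen c b hb).symm z0)).1 = ((hen c b hb).symm z0).2 := rfl
  rw [h6] at h4
  set x := ((hen c b hb).symm z0).1
  set y := ((hen c b hb).symm z0).2
  refine ⟨z0.1, ?_, ?_, hmin'⟩
  · nlinarith [sq_nonneg x, mul_nonneg (neg_nonneg.2 hbn.le) (sub_nonneg.2 h4)]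
  · intro h0
    have : z0.1 ^ 2 ≤ x ^ 2 := pow_le_pow_left₀ h0 h3 2
    nlinarith [mul_nonneg (neg_nonneg.2 hbn.le) (sub_nonneg.2 h4)]

/-- the backward orbit of a point of K, as a sequence of first coordinates -/
theorem back_rec (z : E) (k : ℕ) : ((hen c b hb).symm^[k] z).1 =
    ((hen c b hb).symm^[k + 1] z).1 ^ 2 + c - b * ((hen c b hb).symm^[k + 2] z).1 := by
  rw [Function.iterate_succ_apply' _ (k + 1) z, Function.iterate_succ_apply' _ k z]
  have := congrArg Prod.fst ((hen c b hb).apply_symm_apply ((hen c b hb).symm^[k] z))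
  rw [MD.hen_apply] at this
  exact this.symm

/-- for 0 < b < 1, c ≥ b: x ≥ x₊ - 3 δ / 2 -/
theorem kpos (hb0 : 0 < b) (hb1 : b < 1) (hc : b ≤ c) (h : (KK c b hb).Nonempty) :
    c ≤ (1 + b) ^ 2 / 4 ∧ ∀ z ∈ KK c b hb, |b| - (1 - b) / 2 ≤ z.1 := by
  obtain ⟨R, hR0, hR, hKR⟩ := kR c b hb h
  rw [abs_of_pos hb0] at hR
  have hc4 : c ≤ (1 + b) ^ 2 / 4 := by nlinarith [sq_nonneg (R - (1 + b) / 2)]
  refine ⟨hc4, ?_⟩
  set δ := Real.sqrt ((1 + b) ^ 2 - 4 * c) with hδ
  have hδ0 : 0 ≤ δ := Real.sqrt_nonneg _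
  have hδ2 : δ ^ 2 = (1 + b) ^ 2 - 4 * c := Real.sq_sqrt (by linarith)
  have hδ1 : δ ≤ 1 - b := by
    apply Real.sqrt_le_iff.2
    constructor
    · linarith
    · nlinarith
  set P := (1 + b + δ) / 2 with hP
  have hP2 : P ^ 2 = (1 + b) * P - c := by
    rw [hP]; nlinarith
  have hRP : R ≤ P := by
    by_contra hcon
    rw [not_le] at hcon
    have h1 : (R - P) * (R + P - (1 + b)) ≤ 0 := by nlinarith
    have h2 : 0 < R + P - (1 + b) := by linarith
    nlinarith
  intro z hz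
  have hrise := rise b δ (2 * P) hb0 hb1 hδ0 hδ1
    (fun k => P - ((hen c b hb).symm^[k] z).1)
    (fun k => by
      have := (hKR _ (kgn c b hb hz k)).1
      have := (abs_le.1 this).2
      linarith)
    (fun k => by
      have := (hKR _ (kgn c b hb hz k)).1
      have := (abs_le.1 this).1
      linarith)
    (fun k => by
      have h1 := back_rec c b hb z k
      set x0 := ((hen c b hb).symm^[k] z).1
      set x1 := ((hen c b hb).symm^[k + 1] z).1
      set x2 := ((hen c b hb).symm^[k + 2] z).1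
      show P - x0 = (P - x1) * (1 + b + δ - (P - x1)) - b * (P - x2)
      have h2 : 1 + b + δ = 2 * P := by rw [hP]; ring
      rw [h2, h1]
      linear_combination (-1) * hP2)
  have h4 : P - z.1 ≤ 3 * δ / 2 := hrise
  rw [abs_of_pos hb0]
  linarith

end MR
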