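import Pool.Agent.Lib.MP_904526_R.G

/-!
# Orientation reversing Henon maps before the first period doubling

For `-1 < b ≤ -1/4` and `c > -3 (1 + b)² / 4` the function
`Vn (x, y) = x³/3 - (1+b) x²/2 + c x + (b/2) d² - (1 + b + x + y) d²/4 + d³/12`, `d = x - y`,
is a strict Lyapunov function on the set of bounded orbits.
-/

set_option autoImplicit false

open Set Filter Topology MeasureTheory

namespace MR

open MD (E hen KK)
open ME (henonMap stableSet SupportedOnSink MildlyDissipative cx Km)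

/-- on the set of bounded orbits `x + y > - (1 + b)` -/
theorem kS (c b : ℝ) (hb : b ≠ 0) (hbn : b < 0) (hb1 : -1 < b)
    (hc : -(3 * (1 + b) ^ 2) / 4 < c) (z : E) (hz : z ∈ KK c b hb) : 0 < 1 + b + z.1 + z.2 := by
  obtain ⟨z0, hz0, hmin⟩ := (MD.kk_compact c b hb).exists_isMinOn ⟨z, hz⟩
    (f := fun z : E => z.1 + z.2) (by fun_prop)
  have hmin' : ∀ z ∈ KK c b hb, z0.1 + z0.2 ≤ z.1 + z.2 := fun z hz => hmin hz
  have h1 := hmin' _ (kg c b hb hz0)
  have h5 : z0.1 = ((hen c b hb).symm z0).1 ^ 2 + c - b * ((hen c b hb).symm z0).2 := by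
    have := congrArg Prod.fst ((hen c b hb).apply_symm_apply z0)
    rw [MD.hen_apply] at this
    exact this.symm
  have h6 : z0.2 = ((hen c b hb).symm z0).1 := rfl
  have h7 := hmin' z hz
  set x := ((hen c b hb).symm z0).1
  set y := ((hen c b hb).symm z0).2
  have ha : 0 < 1 + b := by linarith
  have h8 : z0.1 + z0.2 = -b * (x + y) + (x ^ 2 + (1 + b) * x + c) := by rw [h5, h6]; ring
  have h9 : -b * (z0.1 + z0.2) ≤ -b * (x + y) := mul_le_mul_of_nonneg_left h1 (by linarith)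
  have h10 : (1 + b) * (z0.1 + z0.2) ≥ c - (1 + b) ^ 2 / 4 := by
    nlinarith [sq_nonneg (x + (1 + b) / 2)]
  have h11 : 0 < (1 + b) * (1 + b + (z0.1 + z0.2)) := by nlinarith
  have h12 : 0 < 1 + b + (z0.1 + z0.2) := (mul_pos_iff_of_pos_left ha).1 h11
  linarith

/-- three consecutive points of a bounded orbit -/
theorem kr (c b : ℝ) (hb : b ≠ 0) (hbn : b < 0) (hb1 : -1 < b) (z : E) (hz : z ∈ KK c b hb) :
    ∃ r : ℝ, z.1 = z.2 ^ 2 + c - b * r ∧ r ^ 2 + c / (1 + b) ≤ z.2 := by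
  obtain ⟨m, h1, -, h3⟩ := kmin c b hb hbn ⟨z, hz⟩
  have ha : 0 < 1 + b := by linarith
  have hg1 := kg c b hb hz
  have hg2 := kg c b hb hg1
  have hg3 := kg c b hb hg2
  have e1 : z.1 = ((hen c b hb).symm z).1 ^ 2 + c - b * ((hen c b hb).symm z).2 := by
    have := congrArg Prod.fst ((hen c b hb).apply_symm_apply z)
    rw [MD.hen_apply] at this
    exact this.symm
  have e2 : ((hen c b hb).symm z).1 = ((hen c b hb).symm ((hen c b hb).symm z)).1 ^ 2 + c -
      b * ((hen c b hb).symm ((hen c b hb).symm z)).2 := by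
    have := congrArg Prod.fst ((hen c b hb).apply_symm_apply ((hen c b hb).symm z))
    rw [MD.hen_apply] at this
    exact this.symm
  have e3 : z.2 = ((hen c b hb).symm z).1 := rfl
  have e4 : ((hen c b hb).symm z).2 = ((hen c b hb).symm ((hen c b hb).symm z)).1 := rfl
  have e5 : ((hen c b hb).symm ((hen c b hb).symm z)).2 =
      ((hen c b hb).symm ((hen c b hb).symm ((hen c b hb).symm z))).1 := rfl
  have e6 := h3 _ hg3
  rw [← e5] at e6
  refine ⟨((hen c b hb).symm z).2, by rw [e3]; exact e1, ?_⟩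
  rw [e3, e2, e4]
  set s := ((hen c b hb).symm ((hen c b hb).symm z)).2
  have e7 : c / (1 + b) ≤ m := by rw [div_le_iff₀ ha]; linarith
  have e8 : c / (1 + b) ≤ s := e7.trans e6
  have e9 : c / (1 + b) = c - b * (c / (1 + b)) := by field_simp; ring
  have e10 : -b * (c / (1 + b)) ≤ -b * s := mul_le_mul_of_nonneg_left e8 (by linarith)
  linarith

/-- the algebraic inequality -/
theorem Gpos (a β c k x y r : ℝ) (ha : a = 1 - β) (hβ : 1 / 4 ≤ β) (hβ1 : β < 1)
    (hc : c = -(a * k)) (hk : k < 3 * a / 4) (hx : x = y ^ 2 + c + β * r) (hy : r ^ 2 - k ≤ y) :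
    0 < 4 * x ^ 2 - 3 * x + 4 * c + (5 + 4 * β) * y + 3 * a + 12 * β := by
  have ha0 : 0 < a := by linarith
  have hyk : -k ≤ y := by linarith [sq_nonneg r]
  rcases le_or_gt x 0 with h | h
  · have h1 : 0 ≤ 4 * x ^ 2 - 3 * x := by nlinarith [sq_nonneg x]
    have h2 : (5 + 4 * β) * -k ≤ (5 + 4 * β) * y := mul_le_mul_of_nonneg_left hyk (by linarith)
    have h3 : 4 * c + (5 + 4 * β) * -k = -9 * k := by rw [hc, ha]; ring
    linarith
  · rcases le_or_gt (-1 / 2) y with h' | h'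
    · have h1 : -9 / 16 ≤ 4 * x ^ 2 - 3 * x := by nlinarith [sq_nonneg (x - 3 / 8)]
      have h2 : (5 + 4 * β) * (-1 / 2) ≤ (5 + 4 * β) * y :=
        mul_le_mul_of_nonneg_left h' (by linarith)
      have h3 : -(3 * a ^ 2 / 4) < c := by rw [hc]; nlinarith
      have h4 : β = 1 - a := by linarith
      subst h4
      have h5 : 0 ≤ (3 - 4 * a) * (37 + 12 * a) := mul_nonneg (by linarith) (by linarith)
      nlinarith
    · exfalso
      have h1 : 1 / 2 < k := by linarith
      have h2 : 2 / 3 < a := by linarith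
      have h3 : β < 1 / 3 := by linarith
      have h4 : r ^ 2 < k - 1 / 2 := by linarith
      have h5 : r ≤ 1 / 4 := by nlinarith [sq_nonneg (r - 1 / 4)]
      have h6 : y ^ 2 ≤ k ^ 2 := by nlinarith
      have h7 : β * r ≤ β * (1 / 4) := mul_le_mul_of_nonneg_left h5 (by linarith)
      have h8 : 1 / 12 < k * (a - k) := by nlinarith
      nlinarith

/-- the Lyapunov function for b < 0 -/
noncomputable def Vn (c b : ℝ) (z : E) : ℝ :=
  z.1 ^ 3 / 3 - (1 + b) * z.1 ^ 2 / 2 + c * z.1 + b / 2 * (z.1 - z.2) ^ 2 -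
    (1 + b + z.1 + z.2) * (z.1 - z.2) ^ 2 / 4 + (z.1 - z.2) ^ 3 / 12

theorem Vn_cont (c b : ℝ) : Continuous (Vn c b) := by
  unfold Vn
  fun_prop

theorem Vn_diff (c b x y x' : ℝ) (h : x' = x ^ 2 + c - b * y) :
    Vn c b (x', x) - Vn c b (x, y) = ((1 + b + x' + x) * (x' - x) ^ 2 +
      (1 + b + x + y) * (x - y) ^ 2) / 4 - b / 2 * (x' - y) ^ 2 -
      ((x - y) ^ 3 + (x' - x) ^ 3) / 12 := by
  have h' : x ^ 2 = x' - c + b * y := by linarith
  unfold Vn
  simp only
  linear_combination (x' - x) * h'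

theorem Vn_step (c b : ℝ) (hb : b ≠ 0) (hb4 : b ≤ -1 / 4) (hb1 : -1 < b)
    (hc : -(3 * (1 + b) ^ 2) / 4 < c) (z : E) (hz : z ∈ KK c b hb) :
    Vn c b z ≤ Vn c b (hen c b hb z) ∧ (Vn c b (hen c b hb z) = Vn c b z → hen c b hb z = z) := by
  have hbn : b < 0 := by linarith
  have ha : 0 < 1 + b := by linarith
  have h1 := kS c b hb hbn hb1 hc z hz
  have h2 := kS c b hb hbn hb1 hc _ (kf c b hb hz)
  obtain ⟨r, h3, h4⟩ := kr c b hb hbn hb1 z hz
  have hG := Gpos (1 + b) (-b) c (-(c / (1 + b))) z.1 z.2 r (by ring) (by linarith) (by linarith)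
    (by field_simp) (by
      rw [neg_lt, lt_div_iff₀ ha]
      nlinarith) (by linarith) (by linarith)
  obtain ⟨x, y⟩ := z
  rw [MD.hen_apply] at h2 ⊢
  simp only at h1 h2 h3 h4 hG ⊢
  set x' := x ^ 2 + c - b * y with hx'
  have hd := Vn_diff c b x y x' hx'
  have key : ∃ κ : ℝ, 0 < κ ∧
      κ * ((x - y) ^ 2 + (x' - x) ^ 2) ≤ Vn c b (x', x) - Vn c b (x, y) := by
    rcases le_or_gt (x' - y) 0 with hs | hs
    · refine ⟨min (1 + b + x + y) (1 + b + x' + x) / 4, by positivity, ?_⟩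
      rw [hd]
      have e1 : 0 ≤ -((x - y) ^ 3 + (x' - x) ^ 3) / 12 := by
        have e2 : (x - y) ^ 3 + (x' - x) ^ 3 =
            (x' - y) * ((x - y) ^ 2 - (x - y) * (x' - x) + (x' - x) ^ 2) := by ring
        rw [e2]
        have e3 : 0 ≤ (x - y) ^ 2 - (x - y) * (x' - x) + (x' - x) ^ 2 := by
          nlinarith [sq_nonneg ((x - y) - (x' - x)), sq_nonneg (x - y), sq_nonneg (x' - x)]
        nlinarith
      have e4 : 0 ≤ -b / 2 * (x' - y) ^ 2 := mul_nonneg (by linarith) (sq_nonneg _)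
      have e5 := mul_le_mul_of_nonneg_right (min_le_left (1 + b + x + y) (1 + b + x' + x))
        (sq_nonneg (x - y))
      have e6 := mul_le_mul_of_nonneg_right (min_le_right (1 + b + x + y) (1 + b + x' + x))
        (sq_nonneg (x' - x))
      linarith
    · have e1 : Vn c b (x', x) - Vn c b (x, y) =
          (1 + b + x + y) * ((x - y) ^ 2 + (x' - x) ^ 2) / 4 +
          (x' - y) ^ 2 * (2 * (x' - x) - (x - y) - 6 * b) / 12 := by
        rw [hd]; ring
      rw [e1]
      rcases le_or_gt 0 (2 * (x' - x) - (x - y) - 6 * b) with hF | hF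
      · refine ⟨(1 + b + x + y) / 4, by linarith, ?_⟩
        have := mul_nonneg (sq_nonneg (x' - y)) hF
        linarith
      · refine ⟨(4 * x ^ 2 - 3 * x + 4 * c + (5 + 4 * -b) * y + 3 * (1 + b) + 12 * -b) / 12,
          by linarith, ?_⟩
        have e2 : (x' - y) ^ 2 ≤ 2 * ((x - y) ^ 2 + (x' - x) ^ 2) := by
          nlinarith [sq_nonneg ((x - y) - (x' - x))]
        have e3 := mul_le_mul_of_nonpos_right e2 hF.le
        have e4 : 4 * x ^ 2 - 3 * x + 4 * c + (5 + 4 * -b) * y + 3 * (1 + b) + 12 * -b =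
            3 * (1 + b + x + y) + 2 * (2 * (x' - x) - (x - y) - 6 * b) := by
          rw [hx']; ring
        rw [e4]
        linarith
  obtain ⟨κ, hκ, hkey⟩ := key
  have hnn : 0 ≤ (x - y) ^ 2 + (x' - x) ^ 2 := by positivity
  refine ⟨by nlinarith [mul_nonneg hκ.le hnn], fun heq => ?_⟩
  have h5 : κ * ((x - y) ^ 2 + (x' - x) ^ 2) ≤ 0 := by linarith
  have h6 : (x - y) ^ 2 + (x' - x) ^ 2 ≤ 0 := by
    by_contra hcon
    rw [not_le] at hcon
    have := mul_pos hκ hcon
    linarith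
  have h7 : x - y = 0 := by nlinarith [sq_nonneg (x - y), sq_nonneg (x' - x)]
  have h8 : x' - x = 0 := by nlinarith [sq_nonneg (x - y), sq_nonneg (x' - x)]
  ext
  · show x' = x
    linarith
  · show x = y
    linarith

/-- region (ii) for b ≤ -1/4 -/
theorem region_neg4 (c b : ℝ) (hb4 : b ≤ -1 / 4) (hb1 : -1 < b)
    (hc : -(3 * (1 + b) ^ 2) / 4 < c) : MildlyDissipative c b := by
  have hb : b ≠ 0 := by linarith
  have hab : |b| < 1 := by rw [abs_lt]; constructor <;> linarith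
  refine grad c b hb hab (Vn c b) (Vn_cont c b) (fun t => ?_)
    (fun hne => ⟨?_, fun z hz => Vn_step c b hb hb4 hb1 hc z hz⟩) hc
  · unfold Vn
    simp only
    ring
  · obtain ⟨m, h1, h2, h3⟩ := kmin c b hb (by linarith) hne
    rcases le_or_gt c 0 with hc0 | hc0
    · nlinarith [sq_nonneg (1 + b)]
    · have hm : 0 ≤ m := by
        by_contra hneg
        rw [not_le] at hneg
        nlinarith
      have := h2 hm
      nlinarith [sq_nonneg (m - (1 + b) / 2)]

end MR
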