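import Pool.Agent.Lib.MP_904526_R.N

/-!
# Orientation preserving Henon maps: second order energy functions

With `W (x) = x³/3 - (1+b) x²/2 + c x`, `d = x - y`, `d' = x' - x`, `σ = x' - y` the function
`Vn + s * Vy`, `Vy (x, y) = (W x + W y)/2 - (x + y) d²/4`, has the increment
`((1+b+2x) d'² + (1+b+2y) d²)/4 + (s (1-b)/4 - b/2) σ² - (s-2) (d³ + d'³)/12`.
-/

set_option autoImplicit false

open Set Filter Topology MeasureTheory

namespace MR

open MD (E hen KK)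
open ME (henonMap stableSet SupportedOnSink MildlyDissipative cx Km)

/-- the symmetric energy -/
noncomputable def Vy (c b : ℝ) (z : E) : ℝ :=
  ((z.1 ^ 3 / 3 - (1 + b) * z.1 ^ 2 / 2 + c * z.1) +
    (z.2 ^ 3 / 3 - (1 + b) * z.2 ^ 2 / 2 + c * z.2)) / 2 - (z.1 + z.2) * (z.1 - z.2) ^ 2 / 4

theorem Vy_cont (c b : ℝ) : Continuous (Vy c b) := by
  unfold Vy
  fun_prop

theorem Vy_diff (c b x y x' : ℝ) (h : x' = x ^ 2 + c - b * y) :
    Vy c b (x', x) - Vy c b (x, y) = (1 - b) / 4 * (x' - y) ^ 2 -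
      ((x - y) ^ 3 + (x' - x) ^ 3) / 12 := by
  have h' : x ^ 2 = x' - c + b * y := by linarith
  unfold Vy
  simp only
  linear_combination ((x' - y) / 2) * h'

/-- the mixed energy -/
noncomputable def Vs (c b s : ℝ) (z : E) : ℝ := (Vn c b z + s * Vy c b z) / (1 + s)

theorem Vs_cont (c b s : ℝ) : Continuous (Vs c b s) :=
  ((Vn_cont c b).add ((Vy_cont c b).const_mul s)).div_const _

theorem Vs_diff (c b s x y x' : ℝ) (hs : 0 ≤ s) (h : x' = x ^ 2 + c - b * y) :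
    (1 + s) * (Vs c b s (x', x) - Vs c b s (x, y)) =
      ((3 * (1 + b + 2 * x) - (s - 2) * (x' - x)) * (x' - x) ^ 2 +
      (3 * (1 + b + 2 * y) - (s - 2) * (x - y)) * (x - y) ^ 2) / 12 +
      (s * (1 - b) / 4 - b / 2) * (x' - y) ^ 2 := by
  have h1 := Vn_diff c b x y x' h
  have h2 := Vy_diff c b x y x' h
  have h3 : (1 + s) * (Vs c b s (x', x) - Vs c b s (x, y)) =
      (Vn c b (x', x) - Vn c b (x, y)) + s * (Vy c b (x', x) - Vy c b (x, y)) := by
    have : (1 + s) ≠ 0 := by linarith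
    unfold Vs
    field_simp
    ring
  rw [h3, h1, h2]
  ring

theorem Vs_step (c b s : ℝ) (hb : b ≠ 0) (hs : 0 ≤ s) (hq : 0 ≤ s * (1 - b) / 4 - b / 2)
    (H : ∀ z ∈ KK c b hb, (s - 2) * ((hen c b hb z).1 - z.1) < 3 * (1 + b + 2 * z.1)) (z : E)
    (hz : z ∈ KK c b hb) : Vs c b s z ≤ Vs c b s (hen c b hb z) ∧
      (Vs c b s (hen c b hb z) = Vs c b s z → hen c b hb z = z) := by
  have h1 := H z hz
  have h2 := H _ (kg c b hb hz)
  rw [Homeomorph.apply_symm_apply] at h2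
  have h3 : ((hen c b hb).symm z).1 = z.2 := rfl
  rw [h3] at h2
  obtain ⟨x, y⟩ := z
  rw [MD.hen_apply] at h1 ⊢
  simp only at h1 h2 ⊢
  set x' := x ^ 2 + c - b * y with hx'
  have hd := Vs_diff c b s x y x' hs hx'
  have e1 : 0 ≤ (3 * (1 + b + 2 * x) - (s - 2) * (x' - x)) * (x' - x) ^ 2 :=
    mul_nonneg (by linarith) (sq_nonneg _)
  have e2 : 0 ≤ (3 * (1 + b + 2 * y) - (s - 2) * (x - y)) * (x - y) ^ 2 :=
    mul_nonneg (by linarith) (sq_nonneg _)
  have e3 : 0 ≤ (s * (1 - b) / 4 - b / 2) * (x' - y) ^ 2 := mul_nonneg hq (sq_nonneg _)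
  have e4 : 0 ≤ (1 + s) * (Vs c b s (x', x) - Vs c b s (x, y)) := by rw [hd]; linarith
  have e5 : 0 ≤ Vs c b s (x', x) - Vs c b s (x, y) :=
    nonneg_of_mul_nonneg_right e4 (by linarith)
  refine ⟨by linarith, fun heq => ?_⟩
  rw [heq, sub_self, mul_zero] at hd
  have e6 : (3 * (1 + b + 2 * x) - (s - 2) * (x' - x)) * (x' - x) ^ 2 = 0 := by linarith
  have e7 : (3 * (1 + b + 2 * y) - (s - 2) * (x - y)) * (x - y) ^ 2 = 0 := by linarith
  have e8 : x' - x = 0 := by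
    rcases mul_eq_zero.1 e6 with h | h
    · linarith
    · exact (pow_eq_zero_iff two_ne_zero).1 h
  have e9 : x - y = 0 := by
    rcases mul_eq_zero.1 e7 with h | h
    · linarith
    · exact (pow_eq_zero_iff two_ne_zero).1 h
  ext
  · show x' = x
    linarith
  · show x = y
    linarith

/-- bounds for the bounded orbits, b > 0 -/
theorem kx (c b : ℝ) (hb : b ≠ 0) (hb0 : 0 < b) (h : (KK c b hb).Nonempty) :
    c ≤ (1 + b) ^ 2 / 4 ∧ ∃ R : ℝ, 0 ≤ R ∧ R ^ 2 ≤ (1 + b) * R - c ∧ ∀ z ∈ KK c b hb,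
      z.1 ≤ R ∧ c * (1 + b / 2) - b ^ 2 / 16 - b ^ 2 * R / 2 - b / 2 ≤ z.1 := by
  obtain ⟨R, hR0, hR, hKR⟩ := kR c b hb h
  rw [abs_of_pos hb0] at hR
  refine ⟨by nlinarith [sq_nonneg (R - (1 + b) / 2)], R, hR0, hR, fun z hz =>
    ⟨(abs_le.1 (hKR z hz).1).2, ?_⟩⟩
  have hg1 := kg c b hb hz
  have hg2 := kg c b hb hg1
  have e1 : z.1 = ((hen c b hb).symm z).1 ^ 2 + c - b * ((hen c b hb).symm z).2 := by
    have := congrArg Prod.fst ((hen c b hb).apply_symm_apply z)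
    rw [MD.hen_apply] at this
    exact this.symm
  have e2 : ((hen c b hb).symm z).1 = ((hen c b hb).symm ((hen c b hb).symm z)).1 ^ 2 + c -
      b * ((hen c b hb).symm ((hen c b hb).symm z)).2 := by
    have := congrArg Prod.fst ((hen c b hb).apply_symm_apply ((hen c b hb).symm z))
    rw [MD.hen_apply] at this
    exact this.symm
  have e4 : ((hen c b hb).symm z).2 = ((hen c b hb).symm ((hen c b hb).symm z)).1 := rfl
  have e6 := (abs_le.1 (hKR _ hg2).2).2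
  rw [e4] at e1
  rw [e1]
  set y := ((hen c b hb).symm z).1
  set r := ((hen c b hb).symm ((hen c b hb).symm z)).1
  set t := ((hen c b hb).symm ((hen c b hb).symm z)).2
  have h1 : r ≤ (r ^ 2 + 1) / 2 := by nlinarith [sq_nonneg (r - 1)]
  have h2 : r ^ 2 = y - c + b * t := by linarith
  have h3 : b * t ≤ b * R := mul_le_mul_of_nonneg_left e6 hb0.le
  have h4 : b * r ≤ b * ((y - c + b * R + 1) / 2) :=
    mul_le_mul_of_nonneg_left (by linarith) hb0.le
  nlinarith [sq_nonneg (y - b / 4)]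

theorem Vs_diag (c b s : ℝ) (hs : 0 ≤ s) (t : ℝ) :
    Vs c b s (t, t) = t ^ 3 / 3 - (1 + b) * t ^ 2 / 2 + c * t := by
  have : (1 + s) ≠ 0 := by linarith
  unfold Vs Vn Vy
  simp only
  field_simp
  ring

/-- region A -/
theorem region_A (c b : ℝ) (hb0 : 0 < b) (hb1 : b ≤ 1 / 2) (hc : -(2 * (1 - b) / 5) ≤ c) :
    MildlyDissipative c b := by
  have hab : |b| < 1 := by rw [abs_of_pos hb0]; linarith
  refine grad c b hb0.ne' hab (Vs c b 2) (Vs_cont c b 2) (Vs_diag c b 2 (by norm_num))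
    (fun hne => ?_) (by nlinarith [sq_nonneg b])
  obtain ⟨hc4, R, hR0, hR, hK⟩ := kx c b hb0.ne' hb0 hne
  refine ⟨hc4, fun z hz => Vs_step c b 2 hb0.ne' (by norm_num) (by linarith) (fun z hz => ?_) z hz⟩
  have h1 := (hK z hz).2
  have hR1 : R ≤ 163 / 100 := by
    by_contra hcon
    rw [not_le] at hcon
    nlinarith
  have h2 : 0 < 1 + b + 2 * z.1 := by
    have h3 : b ^ 2 * R ≤ b ^ 2 * (163 / 100) := mul_le_mul_of_nonneg_left hR1 (sq_nonneg b)
    have h4 : -(2 * (1 - b) / 5) * (1 + b / 2) ≤ c * (1 + b / 2) :=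
      mul_le_mul_of_nonneg_right hc (by linarith)
    nlinarith
  linarith

/-- a criterion for b ≥ 1/2 -/
theorem region_gen (c b m R0 : ℝ) (hb0 : 1 / 2 ≤ b) (hb1 : b < 1) (hc : 2 * b - 1 ≤ c)
    (hm1 : m < 1) (hR0 : (1 + b) / 2 ≤ R0) (hR0' : (1 + b) * R0 - c ≤ R0 ^ 2)
    (hm : m ≤ c * (1 + b / 2) - b ^ 2 / 16 - b ^ 2 * R0 / 2 - b / 2)
    (hL1 : (4 * b - 2) * (c - b * m) < 3 * (1 - b) * (3 + b))
    (hLm : (4 * b - 2) * (m ^ 2 - m + c - b * m) < 3 * (1 - b) * (1 + b + 2 * m))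
    (h4 : (4 * b - 2) * (R0 - 1) ≤ 3 * (1 - b) * (3 + b)) : MildlyDissipative c b := by
  have hbp : 0 < b := by linarith
  have hab : |b| < 1 := by rw [abs_of_pos hbp]; linarith
  have h1b : 0 < 1 - b := by linarith
  have hs : 0 ≤ 2 * b / (1 - b) := by positivity
  refine grad c b hbp.ne' hab (Vs c b (2 * b / (1 - b))) (Vs_cont c b _) (Vs_diag c b _ hs)
    (fun hne => ?_) (by nlinarith [sq_nonneg (1 + b)])
  obtain ⟨hc4, R, hRn, hR, hK⟩ := kx c b hbp.ne' hbp hne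
  refine ⟨hc4, fun z hz => Vs_step c b _ hbp.ne' hs (le_of_eq ?_) (fun z hz => ?_) z hz⟩
  · field_simp
    ring
  have hR1 : R ≤ R0 := by
    by_contra hcon
    rw [not_le] at hcon
    have h1 : 0 < (R - R0) * (R + R0 - (1 + b)) := mul_pos (by linarith) (by linarith)
    nlinarith
  have hmK : ∀ z ∈ KK c b hbp.ne', m ≤ z.1 := by
    intro z hz
    have h1 := (hK z hz).2
    have h2 : b ^ 2 * R ≤ b ^ 2 * R0 := mul_le_mul_of_nonneg_left hR1 (sq_nonneg b)
    linarith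
  have hx := hmK z hz
  have hy : m ≤ z.2 := hmK _ (kg c b hbp.ne' hz)
  have hx' := (hK _ (kf c b hbp.ne' hz)).1
  rw [MD.hen_apply] at hx' ⊢
  simp only at hx' ⊢
  obtain ⟨x, y⟩ := z
  simp only at hx hy hx' ⊢
  have hlam : 2 * b / (1 - b) - 2 = (4 * b - 2) / (1 - b) := by
    field_simp
    ring
  rw [hlam, div_mul_eq_mul_div, div_lt_iff₀ h1b]
  have hby : b * m ≤ b * y := mul_le_mul_of_nonneg_left hy hbp.le
  have h42 : 0 ≤ 4 * b - 2 := by linarith
  rcases le_or_gt x 1 with h | h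
  · have h1 : (4 * b - 2) * (x ^ 2 + c - b * y - x) ≤
        (4 * b - 2) * (m * (x - 1) + c - b * m) := by
      refine mul_le_mul_of_nonneg_left ?_ h42
      nlinarith [mul_nonneg (sub_nonneg.2 hx) (sub_nonneg.2 h)]
    have h2 : (4 * b - 2) * (m * (x - 1) + c - b * m) < 3 * (1 - b) * (1 + b + 2 * x) := by
      have h3 : 0 < (1 - m) * (3 * (1 - b) * (1 + b + 2 * x) -
          (4 * b - 2) * (m * (x - 1) + c - b * m)) := by
        have e1 : (1 - m) * (3 * (1 - b) * (1 + b + 2 * x) -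
            (4 * b - 2) * (m * (x - 1) + c - b * m)) =
            (1 - x) * (3 * (1 - b) * (1 + b + 2 * m) - (4 * b - 2) * (m ^ 2 - m + c - b * m)) +
            (x - m) * (3 * (1 - b) * (3 + b) - (4 * b - 2) * (c - b * m)) := by ring
        rw [e1]
        rcases hx.eq_or_lt with h5 | h5
        · rw [← h5, sub_self, zero_mul, add_zero]
          exact mul_pos (by linarith) (by linarith)
        · have e2 := mul_pos (sub_pos.2 h5) (sub_pos.2 hL1)
          have e3 := mul_nonneg (sub_nonneg.2 h) (sub_pos.2 hLm).le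
          linarith
      have h5 := (mul_pos_iff_of_pos_left (sub_pos.2 hm1)).1 h3
      linarith
    linarith
  · have h1 : (4 * b - 2) * (x ^ 2 + c - b * y - x) ≤ (4 * b - 2) * (R0 - 1) :=
      mul_le_mul_of_nonneg_left (by linarith) h42
    have h2 : 3 * (1 - b) * (3 + b) < 3 * (1 - b) * (1 + b + 2 * x) :=
      mul_lt_mul_of_pos_left (by linarith) (by linarith)
    linarith

/-- region B, first part -/
theorem region_B1 (c b : ℝ) (hb0 : 1 / 2 ≤ b) (hb1 : b ≤ 4 / 5) (hc : 2 * b - 1 ≤ c)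
    (hc4 : c ≤ (1 + b) ^ 2 / 4) : MildlyDissipative c b := by
  have hbp : 0 < b := by linarith
  have h1b : 0 < 1 - b := by linarith
  obtain ⟨m, hm⟩ : ∃ m : ℝ, m = c - 7 / 50 - 13 / 20 * b := ⟨_, rfl⟩
  obtain ⟨e, he⟩ : ∃ e : ℝ, e = c - (2 * b - 1) := ⟨_, rfl⟩
  have he0 : 0 ≤ e := by linarith
  have he1 : e ≤ 9 / 16 := by nlinarith
  have hce : c = e + (2 * b - 1) := by linarith
  have hme : m = e + 27 / 20 * b - 57 / 50 := by rw [hm, hce]; ring
  have h42 : 0 ≤ 4 * b - 2 := by linarith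
  have h46 : 4 * b - 2 ≤ 6 * (1 - b) := by linarith
  refine region_gen c b m (169 / 100 - 37 / 100 * b) hb0 (by linarith) hc
    (by rw [hm]; nlinarith) (by linarith) ?_ ?_ ?_ ?_ ?_
  · nlinarith [sq_nonneg (b - 14 / 25)]
  · have h3 : b * (2 * b - 1) ≤ b * c := mul_le_mul_of_nonneg_left hc hbp.le
    have h4 : 0 ≤ 14 / 100 - 35 / 100 * b + 925 / 10000 * b ^ 2 + 185 / 1000 * b ^ 3 := by
      nlinarith [mul_nonneg hbp.le (sq_nonneg (b - 13 / 20)), sq_nonneg (b - 13 / 20)]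
    nlinarith
  · have h1 : 0 ≤ c - b * m := by
      rw [hm]
      nlinarith
    have h2 : c - b * m ≤ 1 := by
      rw [hm]
      nlinarith [mul_nonneg (sub_nonneg.2 hb1) hbp.le]
    have h3 : (4 * b - 2) * (c - b * m) ≤ 6 * (1 - b) * 1 :=
      mul_le_mul h46 h2 h1 (by linarith)
    nlinarith
  · have h1 : 0 < -(189 / 100) * b ^ 3 - 5003 / 1000 * b ^ 2 + 66056 / 10000 * b - 9608 / 10000 := by
      nlinarith [mul_nonneg (mul_nonneg (sub_nonneg.2 hb0) (sub_nonneg.2 hb1)) hbp.le,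
        mul_nonneg (sub_nonneg.2 hb0) (sub_nonneg.2 hb1)]
    have h2 : 0 ≤ (4 * b - 2) * (e * (57 / 25 - 17 / 10 * b - e)) :=
      mul_nonneg h42 (mul_nonneg he0 (by linarith))
    have h3 : 0 ≤ (1 - b) * e := mul_nonneg h1b.le he0
    have h4 : 3 * (1 - b) * (1 + b + 2 * m) - (4 * b - 2) * (m ^ 2 - m + c - b * m) =
        (-(189 / 100) * b ^ 3 - 5003 / 1000 * b ^ 2 + 66056 / 10000 * b - 9608 / 10000) +
        (4 * b - 2) * (e * (57 / 25 - 17 / 10 * b - e)) + 6 * ((1 - b) * e) := by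
      rw [hme, hce]; ring
    linarith
  · nlinarith

/-- region B, second part -/
theorem region_B2 (c b : ℝ) (hb0 : 4 / 5 ≤ b) (hb1 : b ≤ 9 / 10) (hc : 3 * b - 9 / 5 ≤ c)
    (hc4 : c ≤ (1 + b) ^ 2 / 4) : MildlyDissipative c b := by
  have hbp : 0 < b := by linarith
  have h1b : 0 < 1 - b := by linarith
  obtain ⟨m, hm⟩ : ∃ m : ℝ, m = c + 19 / 20 * b - 283 / 200 := ⟨_, rfl⟩
  obtain ⟨e, he⟩ : ∃ e : ℝ, e = c - (3 * b - 9 / 5) := ⟨_, rfl⟩
  have he0 : 0 ≤ e := by linarith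
  have he1 : e ≤ 21 / 100 := by nlinarith
  have hce : c = e + (3 * b - 9 / 5) := by linarith
  have hme : m = e + 79 / 20 * b - 643 / 200 := by rw [hm, hce]; ring
  have h42 : 0 ≤ 4 * b - 2 := by linarith
  refine region_gen c b m (71 / 20 - 27 / 10 * b) (by linarith) (by linarith) (by linarith)
    (by rw [hm]; nlinarith) (by linarith) ?_ ?_ ?_ ?_ ?_
  · nlinarith [sq_nonneg (b - 17 / 20)]
  · have h3 : b * (3 * b - 9 / 5) ≤ b * c := mul_le_mul_of_nonneg_left hc hbp.le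
    have h4 : 0 ≤ 643 / 200 - 9 / 5 - 47 / 20 * b - 3375 / 10000 * b ^ 2 + 135 / 100 * b ^ 3 := by
      nlinarith [mul_nonneg hbp.le (sq_nonneg (b - 17 / 20)), sq_nonneg (b - 17 / 20)]
    nlinarith
  · have h1 : 0 < 79 / 5 * b ^ 3 - 894 / 25 * b ^ 2 + 1363 / 100 * b + 27 / 5 - 1 / 10 := by
      nlinarith [mul_nonneg (mul_nonneg (sub_nonneg.2 hb0) (sub_nonneg.2 hb1)) hbp.le,
        mul_nonneg (sub_nonneg.2 hb0) (sub_nonneg.2 hb1)]
    have h2 : (4 * b - 2) * (1 - b) ≤ 8 / 5 * (1 / 5) :=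
      mul_le_mul (by linarith) (by linarith) h1b.le (by norm_num)
    have h3 : (4 * b - 2) * (1 - b) * e ≤ 8 / 5 * (1 / 5) * (21 / 100) :=
      mul_le_mul h2 he1 he0 (by norm_num)
    have h4 : 3 * (1 - b) * (3 + b) - (4 * b - 2) * (c - b * m) =
        (79 / 5 * b ^ 3 - 894 / 25 * b ^ 2 + 1363 / 100 * b + 27 / 5) -
        (4 * b - 2) * (1 - b) * e := by
      rw [hme, hce]; ring
    linarith
  · have h1 : 0 < -(4661 / 100) * b ^ 3 + 89139 / 1000 * b ^ 2 - 502819 / 10000 * b +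
        721245 / 100000 := by
      nlinarith [mul_nonneg (mul_nonneg (sub_nonneg.2 hb0) (sub_nonneg.2 hb1)) hbp.le,
        mul_nonneg (sub_nonneg.2 hb0) (sub_nonneg.2 hb1)]
    have h2 : 0 ≤ (4 * b - 2) * (e * (643 / 100 - 69 / 10 * b - e)) :=
      mul_nonneg h42 (mul_nonneg he0 (by linarith))
    have h3 : 0 ≤ (1 - b) * e := mul_nonneg h1b.le he0
    have h4 : 3 * (1 - b) * (1 + b + 2 * m) - (4 * b - 2) * (m ^ 2 - m + c - b * m) =
        (-(4661 / 100) * b ^ 3 + 89139 / 1000 * b ^ 2 - 502819 / 10000 * b +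
        721245 / 100000) +
        (4 * b - 2) * (e * (643 / 100 - 69 / 10 * b - e)) + 6 * ((1 - b) * e) := by
      rw [hme, hce]; ring
    linarith
  · nlinarith

end MR
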