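import Pool.Agent.Lib.MP_904526_E.AN0
import Pool.Agent.Lib.MP_904526_E.MM

/-!
# The known range |b| < 1/4
-/

set_option autoImplicit false

open Set Filter Topology MeasureTheory

namespace MR

open ME (henonMap stableSet SupportedOnSink MildlyDissipative cx Km Kp lp RealCurve)

theorem quarter (c b : ℝ) (hb : 0 < |b|) (hbb : |b| < 1 / 4) : MildlyDissipative c b := by
  have hb0 : b ≠ 0 := abs_pos.mp hb
  refine ⟨by linarith, ?_⟩
  intro μ hμ hμe hμs
  obtain ⟨-, Λ, hΛ, -, hae⟩ := ME.measure_part c b hb0 (by linarith) μ hμ hμe hμs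
  have hl2 : 0 < Real.log 2 := Real.log_pos (by norm_num)
  have hcase : Real.log 2 / (Λ + Real.log (1 / |b|)) < 1 / 2 := by
    have h4 : 2 * Real.log 2 = Real.log 4 := by
      rw [show (4 : ℝ) = 2 ^ 2 by norm_num, Real.log_pow]; norm_num
    have h5 : Real.log 4 < Real.log (1 / |b|) := by
      apply Real.log_lt_log (by norm_num)
      rw [lt_div_iff₀ hb]
      linarith
    rw [div_lt_iff₀ (by linarith)]
    linarith
  obtain ⟨a, ha1, ha2⟩ := exists_between hcase
  filter_upwards [hae] with x hx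
  obtain ⟨γ, h1, h2, h3, h4, h5, h6, h7, ψ, h8, h9, h10, h11⟩ := hx
  obtain ⟨C, hC⟩ := h11 a ha1
  refine ⟨γ, h1, h2, h3, h4, h5, ?_, ?_⟩
  · intro hbd
    obtain ⟨R, hR⟩ : ∃ R : ℝ, ∀ t : ℝ, 0 ≤ t → ‖ψ (t : ℂ)‖ ≤ R := by
      obtain ⟨R, hR⟩ := hbd.exists_norm_le
      refine ⟨max R ‖cx (γ 0)‖, fun t ht => ?_⟩
      rcases ht.eq_or_lt with h0 | h0
      · rw [← h0, h9]; exact le_max_right _ _
      · rw [h9]
        refine le_trans ?_ (le_max_left _ _)
        have := hR (γ t) ⟨t, h0, rfl⟩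
        simpa [cx, Prod.norm_def] using this
    have := ME.AN0 ψ h8.diff R hR C a ha2 hC ((0 : ℝ) : ℂ) ((1 : ℝ) : ℂ)
    rw [h9, h9] at this
    have h01 : γ 0 = γ 1 := by
      simp only [cx, Prod.mk.injEq, Complex.ofReal_inj] at this
      exact Prod.ext this.1 this.2
    exact zero_ne_one (h3 h01)
  · intro hbd
    have hcoe : ∀ t : ℝ, -(t : ℂ) = ((-t : ℝ) : ℂ) := fun t => by push_cast; ring
    obtain ⟨R, hR⟩ : ∃ R : ℝ, ∀ t : ℝ, 0 ≤ t → ‖(fun s => ψ (-s)) (t : ℂ)‖ ≤ R := by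
      obtain ⟨R, hR⟩ := hbd.exists_norm_le
      refine ⟨max R ‖cx (γ 0)‖, fun t ht => ?_⟩
      show ‖ψ (-(t : ℂ))‖ ≤ _
      rcases ht.eq_or_lt with h0 | h0
      · rw [← h0, hcoe, h9, neg_zero]; exact le_max_right _ _
      · rw [hcoe, h9]
        refine le_trans ?_ (le_max_left _ _)
        have := hR (γ (-t)) ⟨-t, by simpa using h0, rfl⟩
        simpa [cx, Prod.norm_def] using this
    have := ME.AN0 (fun s => ψ (-s)) (h8.diff.comp differentiable_neg) R hR C a ha2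
      (fun s => by simpa using hC (-s)) ((0 : ℝ) : ℂ) ((1 : ℝ) : ℂ)
    simp only [hcoe] at this
    rw [h9, h9] at this
    have h01 : γ (-0) = γ (-1) := by
      simp only [cx, Prod.mk.injEq, Complex.ofReal_inj] at this
      exact Prod.ext this.1 this.2
    have := h3 h01
    norm_num at this

end MR
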